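import Pool.Agent.H426R3.CL.Key

set_option autoImplicit false

/-! # Almost locally constant functions are orthogonal to functions with small short averages -/

namespace Pool.Agent.H426R3.CL

open Finset Pool.Agent.H376R2.MR Pool.Agent.H970R2.X

theorem const_run {f : ℕ → ℝ} {a L : ℕ} (h : ∀ i, a ≤ i → i < a + L → f i = f (i + 1)) :
    ∀ t, t ≤ L → f (a + t) = f a := by
  intro t
  induction t with
  | zero => intro _; rfl
  | succ t ih =>
    intro ht
    rw [← ih (by omega), ← add_assoc]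
    exact (h (a + t) (by omega) (by omega)).symm

open scoped Classical in
theorem exc_card (f : ℕ → ℝ) (M D : ℕ) :
    ((Icc 1 M).filter (fun m : ℕ => ∃ j : ℕ, |(j : ℝ) - m| ≤ D ∧ f j ≠ f m)).card ≤
      D + (2 * D + 1) * ((Icc 1 (M + D)).filter (fun i => f i ≠ f (i + 1))).card := by
  set Z := (Icc 1 (M + D)).filter (fun i => f i ≠ f (i + 1)) with hZ
  have hsub : (Icc 1 M).filter (fun m : ℕ => ∃ j : ℕ, |(j : ℝ) - m| ≤ D ∧ f j ≠ f m) ⊆
      Icc 1 D ∪ (range (2 * D + 1)).biUnion (fun t => Z.image (fun i => i + D - t)) := by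
    intro m hm
    rw [mem_filter, mem_Icc] at hm
    obtain ⟨⟨h1, h2⟩, j, hj, hne⟩ := hm
    rw [mem_union, mem_Icc]
    by_cases hmD : m ≤ D
    · exact Or.inl ⟨h1, hmD⟩
    · right
      have hj1 : j ≤ m + D := by
        have := (abs_le.1 hj).2
        have h3 : (j : ℝ) ≤ ((m + D : ℕ) : ℝ) := by push_cast; linarith
        exact_mod_cast h3
      have hj2 : m ≤ j + D := by
        have := (abs_le.1 hj).1
        have h3 : (m : ℝ) ≤ ((j + D : ℕ) : ℝ) := by push_cast; linarith
        exact_mod_cast h3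
      by_contra hcon
      apply hne
      have hc : ∀ i, m - D ≤ i → i < (m - D) + 2 * D → f i = f (i + 1) := by
        intro i hi1 hi2
        by_contra hi3
        apply hcon
        rw [mem_biUnion]
        refine ⟨i + D - m, mem_range.2 (by omega), ?_⟩
        rw [mem_image]
        refine ⟨i, ?_, by omega⟩
        rw [hZ, mem_filter, mem_Icc]
        exact ⟨⟨by omega, by omega⟩, hi3⟩
      have h3 := const_run hc (j - (m - D)) (by omega)
      have h4 := const_run hc (m - (m - D)) (by omega)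
      rw [show (m - D) + (j - (m - D)) = j by omega] at h3
      rw [show (m - D) + (m - (m - D)) = m by omega] at h4
      rw [h3, h4]
  refine (card_le_card hsub).trans ((card_union_le _ _).trans ?_)
  have h1 : (Icc 1 D).card = D := by simp
  rw [h1]
  apply Nat.add_le_add_left
  refine card_biUnion_le.trans ?_
  refine (sum_le_sum fun t _ => card_image_le).trans ?_
  rw [sum_const, card_range, smul_eq_mul]

/-- the weight `x / (4 (1 + log x))` -/
noncomputable def phi (x : ℝ) : ℝ := x / (4 * (1 + Real.log x))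

theorem log_half {x : ℝ} (h1 : 1 / 2 ≤ x) : (-0.7 : ℝ) ≤ Real.log x := by
  have h2 : Real.log (1 / 2) ≤ Real.log x := Real.log_le_log (by norm_num) h1
  rw [one_div, Real.log_inv] at h2
  have := Real.log_two_lt_d9
  linarith

theorem phi_abs {x : ℝ} (h1 : 1 / 2 ≤ x) (h2 : x ≤ 1) : |phi x| ≤ 1 := by
  have h3 := log_half h1
  have h5 : 0 < 4 * (1 + Real.log x) := by linarith
  unfold phi
  rw [abs_of_nonneg (div_nonneg (by linarith) h5.le), div_le_one h5]
  linarith

theorem phi_uc {ε : ℝ} (hε : 0 < ε) : ∃ δ : ℝ, 0 < δ ∧ ∀ x y : ℝ, 1 / 2 ≤ x → x ≤ 1 →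
    1 / 2 ≤ y → y ≤ 1 → |x - y| ≤ δ → |phi x - phi y| ≤ ε := by
  have hc : ContinuousOn phi (Set.Icc (1 / 2 : ℝ) 1) := by
    unfold phi
    apply ContinuousOn.div continuousOn_id
    · apply ContinuousOn.mul continuousOn_const
      apply ContinuousOn.add continuousOn_const
      apply Real.continuousOn_log.mono
      intro x hx
      have := hx.1
      simp only [Set.mem_compl_iff, Set.mem_singleton_iff]
      linarith
    · intro x hx
      have := log_half hx.1
      have : 0 < 4 * (1 + Real.log x) := by linarith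
      exact this.ne'
  have hu := isCompact_Icc.uniformContinuousOn_of_continuous hc
  rw [Metric.uniformContinuousOn_iff] at hu
  obtain ⟨δ, hδ, h⟩ := hu ε hε
  refine ⟨δ / 2, by positivity, fun x y hx1 hx2 hy1 hy2 hxy => ?_⟩
  have := h x ⟨hx1, hx2⟩ y ⟨hy1, hy2⟩ (by rw [Real.dist_eq]; linarith)
  rw [Real.dist_eq] at this
  exact this.le

/-- bounded functions with small short averages (in the form given by `mr_gen`) -/
def SmallAvg (g : ℕ → ℤ) : Prop := Bdd g ∧ ∀ η : ℝ, 0 < η → ∃ h : ℝ, 1 ≤ h ∧ ∃ Y₀ : ℝ,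
  ∀ Y : ℝ, Y₀ ≤ Y → ∑ k ∈ FK ⌊Y / h⌋₊, ‖GGg g Y k‖ ^ 2 ≤ η

open scoped Classical in
/-- almost locally constant functions -/
def LocConst (f : ℕ → ℝ) : Prop := ∀ ε : ℝ, 0 < ε → ∃ N₀ : ℕ, ∀ N : ℕ, N₀ ≤ N →
  (((Icc 1 N).filter (fun i => f i ≠ f (i + 1))).card : ℝ) ≤ ε * N

set_option maxHeartbeats 2000000 in
open scoped Classical in
theorem block {g : ℕ → ℤ} (hg : SmallAvg g) {f : ℕ → ℝ} (hf : ∀ n, |f n| ≤ 1)
    (hz : LocConst f) {ε : ℝ} (hε : 0 < ε) : ∃ N₁ : ℕ, ∀ N : ℕ, N₁ ≤ N →
    |∑ m ∈ Ioc (N / 2) N, (g m : ℝ) * f m| ≤ ε * N := by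
  obtain ⟨hgb, hgs⟩ := hg
  set η : ℝ := ε / 4 with hη
  have hη0 : 0 < η := by positivity
  obtain ⟨h, hh, Y₀, hY₀⟩ := hgs ((η / 8) ^ 2) (by positivity)
  set D : ℕ := ⌈128000 * h / η⌉₊ + 2 with hDd
  have hD2 : 2 ≤ D := by omega
  have hDr : 128000 * h / η ≤ D := by
    refine (Nat.le_ceil _).trans ?_
    rw [hDd]
    push_cast
    linarith
  have hD0 : (0 : ℝ) < D := by
    have : 0 < D := by omega
    exact_mod_cast this
  obtain ⟨δ, hδ, huc⟩ := phi_uc (ε := η / 128) (by positivity)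
  obtain ⟨N₀, hN₀⟩ := hz (η / (1000 * (2 * D + 1))) (by positivity)
  set T : ℝ := max (max Y₀ (2 * h)) (max (max (D / δ) D) (max N₀ (48 * (5 * D + 3) / η + 1)))
    with hT
  refine ⟨⌈T⌉₊ + 1, fun N hN => ?_⟩
  have hNT : T ≤ N := by
    refine (Nat.le_ceil _).trans ?_
    have : ⌈T⌉₊ ≤ N := by omega
    exact_mod_cast this
  have t1 : Y₀ ≤ N := ((le_max_left _ _).trans (le_max_left _ _)).trans hNT
  have t2 : 2 * h ≤ N := ((le_max_right _ _).trans (le_max_left _ _)).trans hNT
  have t3 : D / δ ≤ N :=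
    (((le_max_left _ _).trans (le_max_left _ _)).trans (le_max_right _ _)).trans hNT
  have t4 : (D : ℝ) ≤ N :=
    (((le_max_right _ _).trans (le_max_left _ _)).trans (le_max_right _ _)).trans hNT
  have t5 : (N₀ : ℝ) ≤ N :=
    (((le_max_left _ _).trans (le_max_right _ _)).trans (le_max_right _ _)).trans hNT
  have t6 : 48 * (5 * D + 3) / η + 1 ≤ N :=
    (((le_max_right _ _).trans (le_max_right _ _)).trans (le_max_right _ _)).trans hNT
  have hN0 : (0 : ℝ) < N := by linarith
  have hNpos : 0 < N := by exact_mod_cast hN0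
  have hDN : D ≤ N := by exact_mod_cast t4
  have hh0 : 0 < h := by linarith
  -- the number `K`
  set K : ℕ := ⌊(N : ℝ) / h⌋₊ with hKd
  have hK2 : (N : ℝ) / (2 * h) ≤ K := by
    have h1 : (N : ℝ) / h < K + 1 := Nat.lt_floor_add_one _
    have h2 : 1 ≤ (N : ℝ) / (2 * h) := by
      rw [le_div_iff₀ (by positivity)]
      linarith
    have h3 : (N : ℝ) / h = 2 * ((N : ℝ) / (2 * h)) := by field_simp
    linarith
  have hK1 : 1 ≤ K := by
    have h2 : 1 ≤ (N : ℝ) / (2 * h) := by
      rw [le_div_iff₀ (by positivity)]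
      linarith
    have : (1 : ℝ) ≤ K := h2.trans hK2
    exact_mod_cast this
  have hK0 : (0 : ℝ) < K := by exact_mod_cast hK1
  -- the exceptional set
  set E : Finset ℕ := (Icc 1 (3 * N)).filter (fun m : ℕ => ∃ j : ℕ, |(j : ℝ) - m| ≤ D ∧ f j ≠ f m)
    ∪ (Icc (N / 2 - D) (N / 2 + D + 1) ∪ Icc (N - D) (N + D)) with hE
  have hEcard : (E.card : ℝ) ≤ (5 * D + 3) + η / 250 * N := by
    have h1 : E.card ≤ (D + (2 * D + 1) *
        ((Icc 1 (3 * N + D)).filter (fun i => f i ≠ f (i + 1))).card) +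
        ((2 * D + 2) + (2 * D + 1)) := by
      refine (card_union_le _ _).trans (Nat.add_le_add (exc_card f (3 * N) D) ?_)
      refine (card_union_le _ _).trans (Nat.add_le_add ?_ ?_)
      · rw [Nat.card_Icc]; omega
      · rw [Nat.card_Icc]; omega
    have h2 := hN₀ (3 * N + D) (by
      have : N₀ ≤ N := by exact_mod_cast t5
      omega)
    have h3 : (E.card : ℝ) ≤ (D + (2 * D + 1) *
        (((Icc 1 (3 * N + D)).filter (fun i => f i ≠ f (i + 1))).card : ℝ)) +
        ((2 * D + 2) + (2 * D + 1)) := by exact_mod_cast h1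
    have h4 : (2 * (D : ℝ) + 1) *
        (((Icc 1 (3 * N + D)).filter (fun i => f i ≠ f (i + 1))).card : ℝ) ≤ η / 250 * N := by
      calc (2 * (D : ℝ) + 1) *
        (((Icc 1 (3 * N + D)).filter (fun i => f i ≠ f (i + 1))).card : ℝ)
          ≤ (2 * (D : ℝ) + 1) * (η / (1000 * (2 * D + 1)) * ((3 * N + D : ℕ) : ℝ)) := by gcongr
        _ = η / 1000 * ((3 * N + D : ℕ) : ℝ) := by field_simp
        _ ≤ η / 1000 * (4 * N) := by
            gcongr
            push_cast
            linarith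
        _ = η / 250 * N := by ring
    linarith
  set β : ℕ → ℝ := fun m => if m ∈ Ioc (N / 2) N then f m * phi ((m : ℝ) / N) else 0 with hβd
  have hrange : ∀ m ∈ Ioc (N / 2) N, 1 / 2 ≤ (m : ℝ) / N ∧ (m : ℝ) / N ≤ 1 := by
    intro m hm
    rw [mem_Ioc] at hm
    constructor
    · rw [div_le_div_iff₀ (by norm_num) hN0]
      have : N ≤ m * 2 := by omega
      have h1 : (N : ℝ) ≤ m * 2 := by exact_mod_cast this
      linarith
    · rw [div_le_one hN0]
      exact_mod_cast hm.2
  have hβ1 : ∀ m, |β m| ≤ 1 := by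
    intro m
    simp only [hβd]
    split_ifs with hm
    · obtain ⟨r1, r2⟩ := hrange m hm
      rw [abs_mul]
      calc |f m| * |phi ((m : ℝ) / N)| ≤ 1 * 1 :=
            mul_le_mul (hf m) (phi_abs r1 r2) (abs_nonneg _) (by norm_num)
        _ = 1 := one_mul 1
    · simp
  have he : Real.exp 1 < 3 := by
    have := Real.exp_one_lt_d9
    linarith
  have he1 : 1 < Real.exp 1 := by
    have := Real.exp_one_gt_d9
    linarith
  have hkey := key g hgb hK1 (Y := (N : ℝ)) (lam := η / 8) (by exact_mod_cast hNpos)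
    (by positivity) (hY₀ N t1) β hβ1 hD2 t4 (ε := η / 128) (by positivity) E (by
      intro m hm hmE j hj
      rw [WN, mem_Icc] at hm
      have hm3 : m ≤ 3 * N := by
        have h1 : (m : ℝ) ≤ Real.exp 1 * N := (Nat.le_floor_iff (by positivity)).1 hm.2
        have h2 : (m : ℝ) ≤ ((3 * N : ℕ) : ℝ) := by
          push_cast
          nlinarith
        exact_mod_cast h2
      rw [hE, mem_union, mem_union, not_or, not_or, mem_filter, mem_Icc, mem_Icc, mem_Icc] at hmE
      obtain ⟨e1, e2, e3⟩ := hmE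
      have hfj : f j = f m := by
        by_contra hne
        exact e1 ⟨⟨hm.1, hm3⟩, j, hj, hne⟩
      have hj1 : j ≤ m + D := by
        have := (abs_le.1 hj).2
        have h3 : (j : ℝ) ≤ ((m + D : ℕ) : ℝ) := by push_cast; linarith
        exact_mod_cast h3
      have hj2 : m ≤ j + D := by
        have := (abs_le.1 hj).1
        have h3 : (m : ℝ) ≤ ((j + D : ℕ) : ℝ) := by push_cast; linarith
        exact_mod_cast h3
      have hiff : m ∈ Ioc (N / 2) N ↔ j ∈ Ioc (N / 2) N := by
        rw [mem_Ioc, mem_Ioc]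
        omega
      simp only [hβd]
      by_cases hm4 : m ∈ Ioc (N / 2) N
      · have hj4 := hiff.1 hm4
        rw [if_pos hm4, if_pos hj4, hfj, ← mul_sub, abs_mul]
        obtain ⟨r1, r2⟩ := hrange m hm4
        obtain ⟨r3, r4⟩ := hrange j hj4
        have h5 : |(j : ℝ) / N - (m : ℝ) / N| ≤ δ := by
          rw [← sub_div, abs_div, abs_of_pos hN0, div_le_iff₀ hN0]
          refine hj.trans ?_
          rw [div_le_iff₀ hδ] at t3
          linarith
        have h6 := huc _ _ r3 r4 r1 r2 h5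
        calc |f m| * |phi ((j : ℝ) / N) - phi ((m : ℝ) / N)|
            ≤ 1 * |phi ((j : ℝ) / N) - phi ((m : ℝ) / N)| := by gcongr; exact hf m
          _ ≤ η / 128 := by rw [one_mul]; exact h6
      · have hj4 : j ∉ Ioc (N / 2) N := fun h => hm4 (hiff.2 h)
        rw [if_neg hm4, if_neg hj4]
        simp only [sub_zero, abs_zero]
        positivity)
  -- the identity
  have hid : ∑ m ∈ WN (N : ℝ), (g m : ℝ) * bw (N : ℝ) m * β m =
      (∑ m ∈ Ioc (N / 2) N, (g m : ℝ) * f m) / (4 * N) := by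
    have hsub : Ioc (N / 2) N ⊆ WN (N : ℝ) := by
      intro m hm
      rw [mem_Ioc] at hm
      rw [WN, mem_Icc]
      refine ⟨by omega, Nat.le_floor ?_⟩
      have h1 : (m : ℝ) ≤ N := by exact_mod_cast hm.2
      nlinarith
    rw [← sum_subset hsub (f := fun m => (g m : ℝ) * bw (N : ℝ) m * β m)]
    · rw [sum_div]
      refine sum_congr rfl fun m hm => ?_
      obtain ⟨r1, r2⟩ := hrange m hm
      have hm' := hm
      rw [mem_Ioc] at hm'
      have hm0 : (0 : ℝ) < m := by
        have : 0 < m := by omega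
        exact_mod_cast this
      simp only [hβd, if_pos hm]
      have hl1 := log_half r1
      have hl2 : Real.log ((m : ℝ) / N) ≤ 0 := Real.log_nonpos (by positivity) r2
      have hlog : Real.log m - Real.log N = Real.log ((m : ℝ) / N) :=
        (Real.log_div hm0.ne' hN0.ne').symm
      unfold bw w phi
      rw [hlog, abs_of_nonpos hl2, max_eq_right (by linarith)]
      have h7 : 1 + Real.log ((m : ℝ) / N) ≠ 0 := by
        have : 0 < 1 + Real.log ((m : ℝ) / N) := by linarith
        exact this.ne'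
      have h8 : 1 - -Real.log ((m : ℝ) / N) = 1 + Real.log ((m : ℝ) / N) := by ring
      rw [h8]
      generalize 1 + Real.log ((m : ℝ) / N) = q at h7
      field_simp
    · intro m _ hm
      simp only [hβd, if_neg hm, mul_zero]
  rw [hid, abs_div, abs_of_pos (by positivity : (0 : ℝ) < 4 * N), div_le_iff₀ (by positivity)]
    at hkey
  have hb1 : 8000 * (N : ℝ) / (K * D) ≤ η / 8 := by
    rw [div_le_iff₀ (by positivity)]
    have h1 : 128000 * h ≤ D * η := by
      rw [div_le_iff₀ hη0] at hDr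
      exact hDr
    have h2 : (N : ℝ) ≤ 2 * h * K := by
      rw [div_le_iff₀ (by positivity)] at hK2
      linarith
    calc 8000 * (N : ℝ) ≤ 8000 * (2 * h * K) := by gcongr
      _ = (1 / 8) * (128000 * h) * K := by ring
      _ ≤ (1 / 8) * (D * η) * K := by gcongr
      _ = η / 8 * (K * D) := by ring
  have hb2 : 6 * (E.card : ℝ) / N ≤ η / 4 := by
    rw [div_le_iff₀ hN0]
    have h1 : 48 * (5 * (D : ℝ) + 3) ≤ η * N := by
      have h2 : 48 * (5 * (D : ℝ) + 3) / η ≤ N := by linarith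
      rw [div_le_iff₀ hη0] at h2
      linarith
    nlinarith
  have hb3 : η / 8 + 8 * (η / 128) + 8000 * (N : ℝ) / (K * D) + 6 * (E.card : ℝ) / N ≤ η := by
    linarith
  calc |∑ m ∈ Ioc (N / 2) N, (g m : ℝ) * f m|
      ≤ (η / 8 + 8 * (η / 128) + 8000 * (N : ℝ) / (K * D) + 6 * (E.card : ℝ) / N) * (4 * N) :=
        hkey
    _ ≤ η * (4 * N) := by gcongr
    _ = ε * N := by rw [hη]; ring

/-- ORTHOGONALITY -/
theorem orth {g : ℕ → ℤ} (hg : SmallAvg g) {f : ℕ → ℝ} (hf : ∀ n, |f n| ≤ 1)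
    (hz : LocConst f) {ε : ℝ} (hε : 0 < ε) : ∃ N₁ : ℕ, ∀ N : ℕ, N₁ ≤ N →
    |∑ m ∈ Icc 1 N, (g m : ℝ) * f m| ≤ ε * N := by
  obtain ⟨N₁, hN₁⟩ := block hg hf hz (ε := ε / 4) (by positivity)
  have hgb := hg.1
  have htriv : ∀ N : ℕ, |∑ m ∈ Icc 1 N, (g m : ℝ) * f m| ≤ N := by
    intro N
    refine (abs_sum_le_sum_abs _ _).trans ?_
    calc ∑ m ∈ Icc 1 N, |(g m : ℝ) * f m| ≤ ∑ _m ∈ Icc 1 N, (1 : ℝ) := by
          refine sum_le_sum fun m _ => ?_
          rw [abs_mul]
          have h1 : |(g m : ℝ)| ≤ 1 := by exact_mod_cast hgb m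
          calc |(g m : ℝ)| * |f m| ≤ 1 * 1 := mul_le_mul h1 (hf m) (abs_nonneg _) (by norm_num)
            _ = 1 := one_mul 1
      _ = N := by simp
  have hind : ∀ N : ℕ, |∑ m ∈ Icc 1 N, (g m : ℝ) * f m| ≤ ε / 2 * N + N₁ := by
    intro N
    induction N using Nat.strong_induction_on with
    | _ N ih =>
      by_cases hN : N < N₁ ∨ N = 0
      · refine (htriv N).trans ?_
        have h1 : (N : ℝ) ≤ N₁ := by
          rcases hN with h | h
          · exact_mod_cast h.le
          · rw [h]; simp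
        have h2 : 0 ≤ ε / 2 * N := by positivity
        linarith
      · push Not at hN
        have h1 := ih (N / 2) (by omega)
        have h2 := hN₁ N hN.1
        have h3 : ∑ m ∈ Icc 1 N, (g m : ℝ) * f m = ∑ m ∈ Icc 1 (N / 2), (g m : ℝ) * f m +
            ∑ m ∈ Ioc (N / 2) N, (g m : ℝ) * f m := by
          rw [← sum_union]
          · congr 1
            ext m
            rw [mem_union, mem_Icc, mem_Icc, mem_Ioc]
            omega
          · rw [Finset.disjoint_left]
            intro m hm hm'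
            rw [mem_Icc] at hm
            rw [mem_Ioc] at hm'
            omega
        rw [h3]
        refine (abs_add_le _ _).trans ?_
        have h4 : ((N / 2 : ℕ) : ℝ) ≤ N / 2 := by
          have := @Nat.cast_div_le ℝ _ _ _ N 2
          simpa using this
        have h5 : ε / 2 * ((N / 2 : ℕ) : ℝ) ≤ ε / 2 * (N / 2) := by gcongr
        linarith
  refine ⟨⌈2 * N₁ / ε⌉₊, fun N hN => (hind N).trans ?_⟩
  have h1 : 2 * N₁ / ε ≤ N := (Nat.le_ceil _).trans (by exact_mod_cast hN)
  rw [div_le_iff₀ hε] at h1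
  linarith

end Pool.Agent.H426R3.CL
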