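import Mathlib
import Pool.Agent.H499R2.CO.S2
import Pool.Agent.H499R2.NDProg
import Pool.Agent.H499R2.NDClass2
import Pool.Agent.H499R2.NDCor

set_option autoImplicit false

/-! # Sets closed under coalescence are almost locally constant; densities of invariant sets -/

namespace Pool.Agent.H426R3.CLoc

open Finset Filter Topology Pool.Agent.H499R2.ND Pool.Agent.H499R2.CO

open scoped Classical in
/-- a function which takes the same value at coalescing integers is almost locally constant -/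
theorem loc_count {α : Type*} {s : ℤ} (hs : s = 1 ∨ s = -1) {F : ℤ → α}
    (hF : ∀ (t : ℕ) (x y : ℤ), (Tz 1)^[t] x = (Tz 1)^[t] y → F x = F y)
    {ε : ℝ} (hε : 0 < ε) : ∃ N₀ : ℕ, ∀ N : ℕ, N₀ ≤ N →
    (((Icc 1 N).filter (fun n : ℕ => F (s * (n : ℤ)) ≠ F (s * ((n + 1 : ℕ) : ℤ)))).card : ℝ) ≤
      ε * N := by
  obtain ⟨θ, hθ, N0, hN0⟩ := solidT hε
  refine ⟨max N0 1, fun N hN => ?_⟩
  have hN1 : 1 ≤ N := (le_max_right _ _).trans hN
  have hN2 : N0 ≤ N := (le_max_left _ _).trans hN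
  have hsodd : s % 2 = 1 := by rcases hs with rfl | rfl <;> norm_num
  have hss : s * s = 1 := by rcases hs with rfl | rfl <;> norm_num
  have hh : |(s : ℝ)| ≤ (N : ℝ) ^ θ := by
    have h1 : |(s : ℝ)| = 1 := by rcases hs with rfl | rfl <;> norm_num
    rw [h1]
    exact Real.one_le_rpow (by exact_mod_cast hN1) hθ.le
  refine le_trans ?_ (hN0 N hN2 s hsodd s hh)
  have : ((Icc 1 N).filter
      (fun n : ℕ => F (s * (n : ℤ)) ≠ F (s * ((n + 1 : ℕ) : ℤ)))).card ≤
      #{n ∈ Icc 1 N | ¬ ∃ t, 2 ^ t ≤ N ∧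
        (Tz s)^[t] ((n : ℕ) : ℤ) = (Tz s)^[t] ((n : ℤ) + s * s)} := by
    apply card_le_card
    intro n hn
    rw [mem_filter] at hn ⊢
    refine ⟨hn.1, ?_⟩
    rintro ⟨t, _, ht⟩
    apply hn.2
    apply hF t
    rw [← Tz_sign_iter hs, ← Tz_sign_iter hs, ht, hss]
    push_cast
    rfl
  exact_mod_cast this

theorem inv_closed {S : Set ℤ} (h : ∀ x : ℤ, x ∈ S ↔ Ci x ∈ S) (t : ℕ) (x y : ℤ)
    (hxy : (Tz 1)^[t] x = (Tz 1)^[t] y) : x ∈ S ↔ y ∈ S := by
  have hi : Inv 1 S := Ci_inv h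
  have hit : ∀ (k : ℕ) (z : ℤ), z ∈ S ↔ (Tz 1)^[k] z ∈ S := by
    intro k
    induction k with
    | zero => intro z; rfl
    | succ k ih =>
      intro z
      rw [Function.iterate_succ_apply, ← ih]
      exact hi z
  rw [hit t x, hxy, ← hit t y]

theorem side_ncard {s : ℤ} (hs : s = 1 ∨ s = -1) (S : Set ℤ) (N : ℕ) :
    ({n : ℤ | 0 < s * n ∧ s * n ≤ N ∧ n ∈ S}.ncard : ℝ) = cnt (fun n : ℕ => s * (n : ℤ) ∈ S) N := by
  have hss : s * s = 1 := by rcases hs with rfl | rfl <;> norm_num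
  unfold cnt
  congr 1
  have himg : {n : ℤ | 0 < s * n ∧ s * n ≤ N ∧ n ∈ S} =
      (fun n : ℕ => s * (n : ℤ)) '' {n : ℕ | 1 ≤ n ∧ n ≤ N ∧ s * (n : ℤ) ∈ S} := by
    ext z
    simp only [Set.mem_setOf_eq, Set.mem_image]
    constructor
    · rintro ⟨h1, h2, h3⟩
      obtain ⟨m, hm⟩ := Int.eq_ofNat_of_zero_le h1.le
      have e : s * (m : ℤ) = z := by
        rw [← hm, ← mul_assoc, hss, one_mul]
      refine ⟨m, ⟨by omega, by omega, ?_⟩, e⟩
      rw [e]
      exact h3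
    · rintro ⟨m, ⟨h1, h2, h3⟩, rfl⟩
      rw [← mul_assoc, hss, one_mul]
      exact ⟨by exact_mod_cast h1, by exact_mod_cast h2, h3⟩
  rw [himg]
  apply Set.ncard_image_of_injective
  intro a b hab
  simp only at hab
  have h0 : s ≠ 0 := by rintro rfl; simp at hss
  exact_mod_cast mul_left_cancel₀ h0 hab

/-- densities in residue classes of the invariant sets -/
theorem inv_dens {s : ℤ} (hs : s = 1 ∨ s = -1) {S : Set ℤ} (h : ∀ x : ℤ, x ∈ S ↔ Ci x ∈ S) :
    ∃ δ : ℝ, (0 < δ ↔ ∃ x ∈ S, 0 < s * x) ∧ (δ = 1 ↔ ∀ x, 0 < s * x → x ∈ S) ∧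
      ∀ q b : ℕ, 0 < q → Tendsto (fun N : ℕ =>
        cnt (fun n => n % q = b % q ∧ s * (n : ℤ) ∈ S) N / N) atTop (𝓝 (δ / q)) := by
  classical
  have hi : Inv 1 S := Ci_inv h
  obtain ⟨δ, hδ0, hδ1, hδ⟩ := dens_side odd_one isCoprime_one_left hs hi
  have hlim : Tendsto (fun N : ℕ => cnt (fun n : ℕ => s * (n : ℤ) ∈ S) N / N) atTop (𝓝 δ) := by
    refine (HD_ncard hs hδ).congr fun N => ?_
    rw [side_ncard hs]
  refine ⟨δ, ⟨fun h0 => ?_, ?_⟩, ⟨fun h1 x hx => ?_, fun hall => ?_⟩, ?_⟩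
  · by_contra hcon
    push Not at hcon
    have hz : ∀ N : ℕ, cnt (fun n : ℕ => s * (n : ℤ) ∈ S) N / N = 0 := by
      intro N
      rw [← side_ncard hs]
      have : {n : ℤ | 0 < s * n ∧ s * n ≤ N ∧ n ∈ S} = ∅ := by
        ext n
        simp only [Set.mem_setOf_eq, Set.mem_empty_iff_false, iff_false]
        rintro ⟨a1, _, a3⟩
        have := hcon n a3
        omega
      rw [this]
      simp
    simp_rw [hz] at hlim
    have := tendsto_nhds_unique hlim tendsto_const_nhds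
    linarith
  · rintro ⟨x, hx, hx2⟩
    exact one_pos hs hi hx hx2 hδ
  · by_contra hcon
    have := one_lt hs hi hcon hx hδ
    linarith
  · have hz : ∀ᶠ N : ℕ in atTop, cnt (fun n : ℕ => s * (n : ℤ) ∈ S) N / N = 1 := by
      filter_upwards [eventually_ge_atTop 1] with N hN
      have hss : s * s = 1 := by rcases hs with rfl | rfl <;> norm_num
      rw [cnt_eq]
      have hN0 : (N : ℝ) ≠ 0 := by
        have : 0 < N := by omega
        exact_mod_cast this.ne'
      rw [filter_true_of_mem]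
      · rw [Nat.card_Icc, Nat.add_sub_cancel, div_self hN0]
      · intro n hn
        rw [mem_Icc] at hn
        apply hall
        rw [← mul_assoc, hss, one_mul]
        exact_mod_cast hn.1
    exact tendsto_nhds_unique hlim (tendsto_const_nhds.congr' (hz.mono fun N hN => hN.symm))
  · intro q b hq
    refine prog_density hlim ?_ hq b
    rw [Metric.tendsto_atTop]
    intro ε hε
    obtain ⟨N₀, hN₀⟩ := loc_count hs (F := fun x => (x ∈ S : Prop))
      (fun t x y hxy => propext (inv_closed h t x y hxy)) (ε := ε / 2) (by positivity)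
    refine ⟨N₀ + 1, fun N hN => ?_⟩
    have hNpos : (0 : ℝ) < N := by
      have : 0 < N := by omega
      exact_mod_cast this
    have h1 := hN₀ N (by omega)
    have h2 : cnt (fun n : ℕ => ¬ (s * (n : ℤ) ∈ S ↔ s * ((n + 1 : ℕ) : ℤ) ∈ S)) N ≤ ε / 2 * N := by
      rw [cnt_eq]
      refine le_trans (le_of_eq ?_) h1
      congr 2
      ext n
      simp only [mem_filter, ne_eq, eq_iff_iff]
    have h3 : 0 ≤ cnt (fun n : ℕ => ¬ (s * (n : ℤ) ∈ S ↔ s * ((n + 1 : ℕ) : ℤ) ∈ S)) N := by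
      unfold cnt
      positivity
    rw [Real.dist_eq, sub_zero, abs_of_nonneg (by positivity), div_lt_iff₀ hNpos]
    refine lt_of_le_of_lt h2 ?_
    nlinarith

end Pool.Agent.H426R3.CLoc
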