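import Pool.Agent.H426R3.CL.Lam
import Pool.Agent.H426R3.CL.Loc

set_option autoImplicit false

/-! # Sets closed under coalescence are orthogonal to the Liouville and Möbius functions -/

namespace Pool.Agent.H426R3.CL

open Finset Filter Topology Pool.Agent.H376R2.MR Pool.Agent.H426R3.CLoc
open Pool.Agent.H499R2.ND (cnt cnt_eq Ci)
open Pool.Agent.H499R2.CO (Tz)

theorem locConst_of {s : ℤ} (hs : s = 1 ∨ s = -1) {F : ℤ → ℝ}
    (hF : ∀ (t : ℕ) (x y : ℤ), (Tz 1)^[t] x = (Tz 1)^[t] y → F x = F y) (c : ℝ) :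
    LocConst (fun n : ℕ => F (s * (n : ℤ)) / c) := by
  classical
  intro ε hε
  obtain ⟨N₀, hN₀⟩ := loc_count hs hF hε
  refine ⟨N₀, fun N hN => le_trans ?_ (hN₀ N hN)⟩
  have : ((Icc 1 N).filter (fun i : ℕ => F (s * (i : ℤ)) / c ≠
      F (s * ((i + 1 : ℕ) : ℤ)) / c)).card ≤
      ((Icc 1 N).filter (fun n : ℕ => F (s * (n : ℤ)) ≠ F (s * ((n + 1 : ℕ) : ℤ)))).card := by
    apply card_le_card
    intro n hn
    rw [mem_filter] at hn ⊢
    refine ⟨hn.1, fun h => hn.2 ?_⟩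
    rw [h]
  exact_mod_cast this

/-- ORTHOGONALITY to a function with small short averages -/
theorem orth_fun {g : ℕ → ℤ} (hg : SmallAvg g) {s : ℤ} (hs : s = 1 ∨ s = -1) {F : ℤ → ℝ}
    {B : ℝ} (hB : ∀ x, |F x| ≤ B)
    (hF : ∀ (t : ℕ) (x y : ℤ), (Tz 1)^[t] x = (Tz 1)^[t] y → F x = F y) :
    Tendsto (fun N : ℕ => (∑ n ∈ Icc 1 N, (g n : ℝ) * F (s * (n : ℤ))) / N) atTop (𝓝 0) := by
  rw [Metric.tendsto_atTop]
  intro ε hε
  have hB0 : 0 ≤ B := (abs_nonneg _).trans (hB 0)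
  have hB1 : 0 < B + 1 := by linarith
  obtain ⟨N₁, hN₁⟩ := orth hg (f := fun n : ℕ => F (s * (n : ℤ)) / (B + 1))
    (by
      intro n
      rw [abs_div, abs_of_pos hB1, div_le_one hB1]
      have := hB (s * (n : ℤ))
      linarith) (locConst_of hs hF (B + 1)) (ε := ε / (2 * (B + 1))) (by positivity)
  refine ⟨N₁ + 1, fun N hN => ?_⟩
  have hNpos : (0 : ℝ) < N := by
    have : 0 < N := by omega
    exact_mod_cast this
  have h1 := hN₁ N (by omega)
  have h2 : ∑ n ∈ Icc 1 N, (g n : ℝ) * F (s * (n : ℤ)) =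
      (B + 1) * ∑ m ∈ Icc 1 N, (g m : ℝ) * (F (s * (m : ℤ)) / (B + 1)) := by
    rw [mul_sum]
    refine sum_congr rfl fun m _ => ?_
    field_simp
  rw [Real.dist_eq, sub_zero, abs_div, abs_of_pos hNpos, div_lt_iff₀ hNpos, h2, abs_mul,
    abs_of_pos hB1]
  calc (B + 1) * |∑ m ∈ Icc 1 N, (g m : ℝ) * (F (s * (m : ℤ)) / (B + 1))|
      ≤ (B + 1) * (ε / (2 * (B + 1)) * N) := by gcongr
    _ = ε / 2 * N := by field_simp
    _ < ε * N := by nlinarith

/-- the Liouville function in residue classes -/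
theorem liouville_closed {s : ℤ} (hs : s = 1 ∨ s = -1) {F : ℤ → ℝ}
    {B : ℝ} (hB : ∀ x, |F x| ≤ B)
    (hF : ∀ (t : ℕ) (x y : ℤ), (Tz 1)^[t] x = (Tz 1)^[t] y → F x = F y)
    (q a : ℕ) (hq : 0 < q) :
    Tendsto (fun N : ℕ => (∑ n ∈ (Icc 1 N).filter (fun n : ℕ => n % q = a % q),
      (-1 : ℝ) ^ (ArithmeticFunction.cardFactors n) * F (s * (n : ℤ))) / N) atTop (𝓝 0) := by
  refine (orth_fun (gl_small hq a) hs hB hF).congr fun N => ?_
  congr 1
  rw [sum_filter]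
  refine sum_congr rfl fun n _ => ?_
  unfold gl lam
  by_cases h1 : n % q = a % q <;> simp [h1]

/-- the Möbius function in residue classes -/
theorem moebius_closed {s : ℤ} (hs : s = 1 ∨ s = -1) {F : ℤ → ℝ}
    {B : ℝ} (hB : ∀ x, |F x| ≤ B)
    (hF : ∀ (t : ℕ) (x y : ℤ), (Tz 1)^[t] x = (Tz 1)^[t] y → F x = F y)
    (q a : ℕ) (hq : 0 < q) :
    Tendsto (fun N : ℕ => (∑ n ∈ (Icc 1 N).filter (fun n : ℕ => n % q = a % q),
      (ArithmeticFunction.moebius n : ℝ) * F (s * (n : ℤ))) / N) atTop (𝓝 0) := by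
  refine (orth_fun (gm_small hq a) hs hB hF).congr fun N => ?_
  congr 1
  rw [sum_filter]
  refine sum_congr rfl fun n _ => ?_
  unfold gm
  by_cases h1 : n % q = a % q <;> simp [h1]

theorem sgn_split (k : ℕ) {e : ℝ} (he : e = 1 ∨ e = -1) :
    (if (-1 : ℝ) ^ k = e then (1 : ℝ) else 0) = (1 + e * (-1 : ℝ) ^ k) / 2 := by
  rcases neg_one_pow_eq_or ℝ k with h | h <;> rcases he with rfl | rfl <;> rw [h] <;> norm_num

/-- densities with a prescribed parity of the number of prime factors -/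
theorem inv_parity {s : ℤ} (hs : s = 1 ∨ s = -1) {S : Set ℤ} (h : ∀ x : ℤ, x ∈ S ↔ Ci x ∈ S) :
    ∃ δ : ℝ, (0 < δ ↔ ∃ x ∈ S, 0 < s * x) ∧ (δ = 1 ↔ ∀ x, 0 < s * x → x ∈ S) ∧
      ∀ q a : ℕ, 0 < q → ∀ e : ℝ, (e = 1 ∨ e = -1) → Tendsto (fun N : ℕ =>
        cnt (fun n => s * (n : ℤ) ∈ S ∧ n % q = a % q ∧
          (-1 : ℝ) ^ (ArithmeticFunction.cardFactors n) = e) N / N) atTop (𝓝 (δ / (2 * q))) := by
  classical
  obtain ⟨δ, h1, h2, h3⟩ := inv_dens hs h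
  refine ⟨δ, h1, h2, fun q a hq e he => ?_⟩
  have h4 := h3 q a hq
  have h5 := liouville_closed hs (F := fun x => if x ∈ S then (1 : ℝ) else 0) (B := 1)
    (by intro x; split_ifs <;> simp)
    (by intro t x y hxy; simp only [inv_closed h t x y hxy]) q a hq
  have h6 := (h4.add (h5.const_mul e)).div_const 2
  have e1 : (δ / q + e * 0) / 2 = δ / (2 * q) := by
    rw [mul_zero, add_zero, div_div]
    congr 1
    ring
  rw [e1] at h6
  refine h6.congr fun N => ?_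
  rw [cnt_eq, cnt_eq, ← mul_div_assoc, ← add_div, div_div, mul_comm (N : ℝ) 2, ← div_div]
  congr 1
  have e2 : (((Icc 1 N).filter (fun n : ℕ => s * (n : ℤ) ∈ S ∧ n % q = a % q ∧
          (-1 : ℝ) ^ (ArithmeticFunction.cardFactors n) = e)).card : ℝ) =
      ∑ n ∈ (Icc 1 N).filter (fun n : ℕ => n % q = a % q ∧ s * (n : ℤ) ∈ S),
        (if (-1 : ℝ) ^ (ArithmeticFunction.cardFactors n) = e then (1 : ℝ) else 0) := by
    rw [card_filter, sum_filter]
    push_cast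
    refine sum_congr rfl fun n _ => ?_
    by_cases a1 : n % q = a % q <;> by_cases a2 : s * (n : ℤ) ∈ S <;>
      by_cases a3 : (-1 : ℝ) ^ (ArithmeticFunction.cardFactors n) = e <;> simp [a1, a2, a3]
  rw [e2]
  simp_rw [sgn_split _ he]
  rw [← sum_div, sum_add_distrib, sum_const, nsmul_eq_mul, mul_one, ← mul_sum]
  congr 3
  rw [sum_filter, sum_filter]
  refine sum_congr rfl fun n _ => ?_
  by_cases a1 : n % q = a % q <;> by_cases a2 : s * (n : ℤ) ∈ S <;> simp [a1, a2]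

end Pool.Agent.H426R3.CL
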