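import Pool.Agent.H426R3.CL.Fin

set_option autoImplicit false

/-! # Squarefree elements of the sets invariant under the Collatz map -/

namespace Pool.Agent.H426R3.CL

open Finset Filter Topology Pool.Agent.H376R2.MR Pool.Agent.H426R3.CLoc
open Pool.Agent.H499R2.ND (cnt cnt_eq Ci)
open Pool.Agent.H499R2.CO (Tz)

open scoped Classical in
theorem tail_sq (P N : ℕ) (hP : 1 ≤ P) :
    (((Icc 1 N).filter (fun n : ℕ => ∃ d, P < d ∧ d ^ 2 ∣ n)).card : ℝ) ≤ N / P := by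
  classical
  have hP0 : (0 : ℝ) < P := by exact_mod_cast hP
  by_cases hPN : P ≤ N
  · have hsub : (Icc 1 N).filter (fun n : ℕ => ∃ d, P < d ∧ d ^ 2 ∣ n) ⊆
        (Ioc P N).biUnion (fun d => (Icc 1 N).filter (fun n => d ^ 2 ∣ n)) := by
      intro n hn
      rw [mem_filter, mem_Icc] at hn
      obtain ⟨⟨h1, h2⟩, d, hd, hdn⟩ := hn
      rw [mem_biUnion]
      refine ⟨d, ?_, ?_⟩
      · rw [mem_Ioc]
        refine ⟨hd, ?_⟩
        have h3 := Nat.le_of_dvd (by omega) hdn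
        have h4 : d ≤ d ^ 2 := Nat.le_self_pow (by norm_num) d
        omega
      · rw [mem_filter, mem_Icc]
        exact ⟨⟨h1, h2⟩, hdn⟩
    have hcard : ∀ d : ℕ, 0 < d → ((((Icc 1 N).filter (fun n => d ^ 2 ∣ n)).card : ℕ) : ℝ) ≤
        N * ((d : ℝ) ^ 2)⁻¹ := by
      intro d hd
      have h1 : ((Icc 1 N).filter (fun n => d ^ 2 ∣ n)).card = N / d ^ 2 := by
        have h2 : Icc 1 N = Ioc 0 N := by ext x; simp [Nat.succ_le_iff]
        rw [h2]
        exact Nat.Ioc_filter_dvd_card_eq_div N (d ^ 2)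
      rw [h1]
      have h3 := @Nat.cast_div_le ℝ _ _ _ N (d ^ 2)
      rw [← div_eq_mul_inv]
      push_cast at h3
      exact h3
    have h1 : (((Icc 1 N).filter (fun n : ℕ => ∃ d, P < d ∧ d ^ 2 ∣ n)).card : ℝ) ≤
        ∑ d ∈ Ioc P N, (N * ((d : ℝ) ^ 2)⁻¹) := by
      have h2 := (card_le_card hsub).trans card_biUnion_le
      calc (((Icc 1 N).filter (fun n : ℕ => ∃ d, P < d ∧ d ^ 2 ∣ n)).card : ℝ)
          ≤ ((∑ d ∈ Ioc P N, ((Icc 1 N).filter (fun n => d ^ 2 ∣ n)).card : ℕ) : ℝ) := by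
            exact_mod_cast h2
        _ = ∑ d ∈ Ioc P N, ((((Icc 1 N).filter (fun n => d ^ 2 ∣ n)).card : ℕ) : ℝ) := by
            push_cast; rfl
        _ ≤ _ := by
            refine sum_le_sum fun d hd => hcard d ?_
            rw [mem_Ioc] at hd
            omega
    refine h1.trans ?_
    rw [← mul_sum, div_eq_mul_inv]
    apply mul_le_mul_of_nonneg_left _ (by positivity)
    refine (sum_Ioc_inv_sq_le_sub (by omega) hPN).trans ?_
    have : 0 ≤ ((N : ℝ))⁻¹ := by positivity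
    linarith
  · push Not at hPN
    have h0 : (Icc 1 N).filter (fun n : ℕ => ∃ d, P < d ∧ d ^ 2 ∣ n) = ∅ := by
      apply filter_eq_empty_iff.2
      intro n hn
      rw [mem_Icc] at hn
      rintro ⟨d, hd, hdn⟩
      have h3 := Nat.le_of_dvd (by omega) hdn
      have h4 : d ≤ d ^ 2 := Nat.le_self_pow (by norm_num) d
      omega
    rw [h0]
    simp only [card_empty, Nat.cast_zero]
    positivity

/-- the squarefree elements of an invariant set have positive lower density -/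
theorem sqf_lower {s : ℤ} (hs : s = 1 ∨ s = -1) {S : Set ℤ} (h : ∀ x : ℤ, x ∈ S ↔ Ci x ∈ S)
    (hne : ∃ x ∈ S, 0 < s * x) : ∃ c : ℝ, 0 < c ∧ ∀ᶠ N : ℕ in atTop,
      c * N ≤ cnt (fun n => s * (n : ℤ) ∈ S ∧ Squarefree n) N := by
  classical
  obtain ⟨δ, h1, _, h3⟩ := inv_dens hs h
  have hδ : 0 < δ := h1.2 hne
  set P : ℕ := ⌈16 / δ⌉₊ + 2 with hP
  have hPr : 16 / δ ≤ P := by
    refine (Nat.le_ceil _).trans ?_
    rw [hP]; push_cast; linarith
  have hP0 : (0 : ℝ) < P := by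
    have : 0 < P := by omega
    exact_mod_cast this
  have hPinv : 1 / (P : ℝ) ≤ δ / 16 := by
    rw [div_le_iff₀ hδ] at hPr
    rw [div_le_div_iff₀ hP0 (by norm_num)]
    linarith
  have hS := h3 1 0 one_pos
  have hd : ∀ d ∈ Icc 2 P, Tendsto (fun N : ℕ =>
      cnt (fun n => n % (d ^ 2) = 0 % (d ^ 2) ∧ s * (n : ℤ) ∈ S) N / N) atTop
      (𝓝 (δ * ((d : ℝ) ^ 2)⁻¹)) := by
    intro d hd
    rw [mem_Icc] at hd
    have := h3 (d ^ 2) 0 (pow_pos (by omega) 2)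
    push_cast at this
    rw [div_eq_mul_inv] at this
    exact this
  have hsum := tendsto_finset_sum (Icc 2 P) hd
  have hdiff := hS.sub hsum
  have hlim : δ / 4 ≤ δ / ((1 : ℕ) : ℝ) - ∑ d ∈ Icc 2 P, δ * ((d : ℝ) ^ 2)⁻¹ := by
    rw [← mul_sum]
    have e1 : Icc 2 P = insert 2 (Ioc 2 P) := by
      ext x
      rw [mem_Icc, mem_insert, mem_Ioc]
      omega
    have h4 : ∑ d ∈ Ioc 2 P, ((d : ℝ) ^ 2)⁻¹ ≤ 1 / 2 := by
      refine (sum_Ioc_inv_sq_le_sub (by norm_num) (by omega)).trans ?_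
      have : 0 ≤ ((P : ℝ))⁻¹ := by positivity
      push_cast
      linarith
    rw [e1, sum_insert (by simp)]
    push_cast
    nlinarith
  have hev := hdiff.eventually (lt_mem_nhds (show δ / ((1 : ℕ) : ℝ) -
    ∑ d ∈ Icc 2 P, δ * ((d : ℝ) ^ 2)⁻¹ - δ / 16 < δ / ((1 : ℕ) : ℝ) -
    ∑ d ∈ Icc 2 P, δ * ((d : ℝ) ^ 2)⁻¹ by linarith))
  refine ⟨δ / 8, by positivity, ?_⟩
  filter_upwards [hev, eventually_ge_atTop 1] with N hN hN1
  have hN0 : (0 : ℝ) < N := by exact_mod_cast hN1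
  have hcov : cnt (fun n => n % 1 = 0 % 1 ∧ s * (n : ℤ) ∈ S) N ≤
      cnt (fun n => s * (n : ℤ) ∈ S ∧ Squarefree n) N +
      (∑ d ∈ Icc 2 P, cnt (fun n => n % (d ^ 2) = 0 % (d ^ 2) ∧ s * (n : ℤ) ∈ S) N) + N / P := by
    have ht := tail_sq P N (by omega)
    rw [cnt_eq (fun n : ℕ => n % 1 = 0 % 1 ∧ s * (n : ℤ) ∈ S) N,
      cnt_eq (fun n : ℕ => s * (n : ℤ) ∈ S ∧ Squarefree n) N,
      sum_congr rfl (fun d _ => cnt_eq (fun n : ℕ => n % (d ^ 2) = 0 % (d ^ 2) ∧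
        s * (n : ℤ) ∈ S) N)]
    have hsub : (Icc 1 N).filter (fun n : ℕ => n % 1 = 0 % 1 ∧ s * (n : ℤ) ∈ S) ⊆
        ((Icc 1 N).filter (fun n : ℕ => s * (n : ℤ) ∈ S ∧ Squarefree n) ∪
        (Icc 2 P).biUnion (fun d => (Icc 1 N).filter
          (fun n : ℕ => n % (d ^ 2) = 0 % (d ^ 2) ∧ s * (n : ℤ) ∈ S))) ∪
        (Icc 1 N).filter (fun n : ℕ => ∃ d, P < d ∧ d ^ 2 ∣ n) := by
      intro n hn
      rw [mem_filter] at hn
      obtain ⟨hn1, -, hn2⟩ := hn
      by_cases hsq : Squarefree n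
      · rw [mem_union, mem_union, mem_filter]
        exact Or.inl (Or.inl ⟨hn1, hn2, hsq⟩)
      · rw [Nat.squarefree_iff_prime_squarefree] at hsq
        push Not at hsq
        obtain ⟨p, hp, hpn⟩ := hsq
        rw [← pow_two] at hpn
        by_cases hpP : p ≤ P
        · rw [mem_union, mem_union, mem_biUnion]
          refine Or.inl (Or.inr ⟨p, ?_, ?_⟩)
          · rw [mem_Icc]
            exact ⟨hp.two_le, hpP⟩
          · rw [mem_filter]
            refine ⟨hn1, ?_, hn2⟩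
            rw [Nat.zero_mod]
            exact Nat.mod_eq_zero_of_dvd hpn
        · exact mem_union_right _ (mem_filter.2 ⟨hn1, p, by omega, hpn⟩)
    have hc := (card_le_card hsub).trans ((card_union_le _ _).trans
      (Nat.add_le_add_right (card_union_le _ _) _))
    have hc2 : (((Icc 2 P).biUnion (fun d => (Icc 1 N).filter
          (fun n : ℕ => n % (d ^ 2) = 0 % (d ^ 2) ∧ s * (n : ℤ) ∈ S))).card : ℝ) ≤
        ∑ d ∈ Icc 2 P, (((Icc 1 N).filter
          (fun n : ℕ => n % (d ^ 2) = 0 % (d ^ 2) ∧ s * (n : ℤ) ∈ S)).card : ℝ) := by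
      exact_mod_cast card_biUnion_le
    have hc3 : (((Icc 1 N).filter (fun n : ℕ => n % 1 = 0 % 1 ∧ s * (n : ℤ) ∈ S)).card : ℝ) ≤
        (((Icc 1 N).filter (fun n : ℕ => s * (n : ℤ) ∈ S ∧ Squarefree n)).card : ℝ) +
        (((Icc 2 P).biUnion (fun d => (Icc 1 N).filter
          (fun n : ℕ => n % (d ^ 2) = 0 % (d ^ 2) ∧ s * (n : ℤ) ∈ S))).card : ℝ) +
        (((Icc 1 N).filter (fun n : ℕ => ∃ d, P < d ∧ d ^ 2 ∣ n)).card : ℝ) := by
      exact_mod_cast hc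
    linarith
  have h5 : cnt (fun n => n % 1 = 0 % 1 ∧ s * (n : ℤ) ∈ S) N / N -
      ∑ d ∈ Icc 2 P, cnt (fun n => n % (d ^ 2) = 0 % (d ^ 2) ∧ s * (n : ℤ) ∈ S) N / N =
      (cnt (fun n => n % 1 = 0 % 1 ∧ s * (n : ℤ) ∈ S) N -
      ∑ d ∈ Icc 2 P, cnt (fun n => n % (d ^ 2) = 0 % (d ^ 2) ∧ s * (n : ℤ) ∈ S) N) / N := by
    rw [sub_div, sum_div]
  rw [h5, lt_div_iff₀ hN0] at hN
  have h6 : (N : ℝ) / P ≤ δ / 16 * N := by
    have : (N : ℝ) / P = 1 / P * N := by ring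
    rw [this]
    gcongr
  nlinarith

/-- squarefree elements with a prescribed parity of the number of prime factors -/
theorem mu_pos {s : ℤ} (hs : s = 1 ∨ s = -1) {S : Set ℤ} (h : ∀ x : ℤ, x ∈ S ↔ Ci x ∈ S)
    (hne : ∃ x ∈ S, 0 < s * x) {e : ℤ} (he : e = 1 ∨ e = -1) : ∃ c : ℝ, 0 < c ∧
      ∀ᶠ N : ℕ in atTop, c * N ≤
        cnt (fun n => s * (n : ℤ) ∈ S ∧ ArithmeticFunction.moebius n = e) N := by
  classical
  obtain ⟨c, hc, hev⟩ := sqf_lower hs h hne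
  have hm := moebius_closed hs (F := fun x => if x ∈ S then (1 : ℝ) else 0) (B := 1)
    (by intro x; split_ifs <;> simp)
    (by intro t x y hxy; simp only [inv_closed h t x y hxy]) 1 0 one_pos
  have hm2 := hm.const_mul (e : ℝ)
  rw [mul_zero] at hm2
  have hev2 := hm2.eventually (lt_mem_nhds (show -(c / 2) < (0 : ℝ) by linarith))
  refine ⟨c / 4, by positivity, ?_⟩
  filter_upwards [hev, hev2, eventually_ge_atTop 1] with N h1 h2 hN1
  have hN0 : (0 : ℝ) < N := by exact_mod_cast hN1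
  rw [← mul_div_assoc, lt_div_iff₀ hN0] at h2
  rw [cnt_eq] at h1 ⊢
  have key : 2 * (((Icc 1 N).filter (fun n : ℕ => s * (n : ℤ) ∈ S ∧
      ArithmeticFunction.moebius n = e)).card : ℝ) =
      (((Icc 1 N).filter (fun n : ℕ => s * (n : ℤ) ∈ S ∧ Squarefree n)).card : ℝ) +
      e * ∑ n ∈ (Icc 1 N).filter (fun n : ℕ => n % 1 = 0 % 1),
        (ArithmeticFunction.moebius n : ℝ) * (if s * (n : ℤ) ∈ S then (1 : ℝ) else 0) := by
    rw [card_filter, card_filter, sum_filter, mul_sum]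
    push_cast
    rw [mul_sum, ← sum_add_distrib]
    refine sum_congr rfl fun n _ => ?_
    by_cases a1 : s * (n : ℤ) ∈ S
    · by_cases a2 : Squarefree n
      · have a3 : ArithmeticFunction.moebius n = 1 ∨ ArithmeticFunction.moebius n = -1 := by
          rw [ArithmeticFunction.moebius_apply_of_squarefree a2]
          exact neg_one_pow_eq_or ℤ _
        rcases he with rfl | rfl <;> rcases a3 with a3 | a3 <;>
          simp [a1, a2, a3, Nat.mod_one] <;> norm_num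
      · have a3 := ArithmeticFunction.moebius_eq_zero_of_not_squarefree a2
        rcases he with rfl | rfl <;> simp [a1, a2, a3]
    · simp [a1]
  linarith

end Pool.Agent.H426R3.CL
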