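import Pool.Agent.H426R3.CL.Fin

set_option autoImplicit false

/-! # The `3x+d` maps: functions constant on coalescing integers are orthogonal to `λ` and `μ` -/

namespace Pool.Agent.H426R3.CG

open Finset Filter Topology Pool.Agent.H376R2.MR Pool.Agent.H426R3.CLoc Pool.Agent.H426R3.CL
open Pool.Agent.H499R2.ND (cnt cnt_eq Td Inv HD dens_side HD_ncard class_pos inv_iter)
open Pool.Agent.H499R2.CO (Tz)

theorem tz_side {d : ℤ} (hd : d % 2 = 1) {s : ℤ} (hs : s = 1 ∨ s = -1) (x : ℤ) :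
    s * Tz (s * d) x = Tz d (s * x) := by
  unfold Tz
  rcases hs with rfl | rfl
  · simp
  · split_ifs <;> omega

theorem tz_side_iter {d : ℤ} (hd : d % 2 = 1) {s : ℤ} (hs : s = 1 ∨ s = -1) (k : ℕ) : ∀ x : ℤ,
    s * (Tz (s * d))^[k] x = (Tz d)^[k] (s * x) := by
  induction k with
  | zero => intro x; rfl
  | succ k ih =>
    intro x
    rw [Function.iterate_succ_apply, Function.iterate_succ_apply, ih, tz_side hd hs]

open scoped Classical in
theorem loc_count_d {α : Type*} {d : ℤ} (hd : d % 2 = 1) {s : ℤ} (hs : s = 1 ∨ s = -1) {F : ℤ → α}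
    (hF : ∀ (t : ℕ) (x y : ℤ), (Tz d)^[t] x = (Tz d)^[t] y → F x = F y)
    {ε : ℝ} (hε : 0 < ε) : ∃ N₀ : ℕ, ∀ N : ℕ, N₀ ≤ N →
    (((Icc 1 N).filter (fun n : ℕ => F (s * (n : ℤ)) ≠ F (s * ((n + d.natAbs : ℕ) : ℤ)))).card : ℝ) ≤
      ε * N := by
  obtain ⟨θ, hθ, N0, hN0⟩ := Pool.Agent.H499R2.CO.solidT hε
  refine ⟨max N0 1, fun N hN => ?_⟩
  have hN1 : 1 ≤ N := (le_max_right _ _).trans hN
  have hN2 : N0 ≤ N := (le_max_left _ _).trans hN
  have hsd : (s * d) % 2 = 1 := by rcases hs with rfl | rfl <;> omega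
  obtain ⟨h, hh, hdh⟩ : ∃ h : ℤ, (h = 1 ∨ h = -1) ∧ (s * d) * h = (d.natAbs : ℤ) := by
    rcases le_total 0 d with h0 | h0 <;> rcases hs with rfl | rfl
    · exact ⟨1, Or.inl rfl, by omega⟩
    · exact ⟨-1, Or.inr rfl, by omega⟩
    · exact ⟨-1, Or.inr rfl, by omega⟩
    · exact ⟨1, Or.inl rfl, by omega⟩
  have hh1 : |(h : ℝ)| ≤ (N : ℝ) ^ θ := by
    have h1 : |(h : ℝ)| = 1 := by rcases hh with rfl | rfl <;> norm_num
    rw [h1]
    exact Real.one_le_rpow (by exact_mod_cast hN1) hθ.le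
  refine le_trans ?_ (hN0 N hN2 (s * d) hsd h hh1)
  have : ((Icc 1 N).filter
      (fun n : ℕ => F (s * (n : ℤ)) ≠ F (s * ((n + d.natAbs : ℕ) : ℤ)))).card ≤
      #{n ∈ Icc 1 N | ¬ ∃ t, 2 ^ t ≤ N ∧
        (Tz (s * d))^[t] ((n : ℕ) : ℤ) = (Tz (s * d))^[t] ((n : ℤ) + s * d * h)} := by
    apply card_le_card
    intro n hn
    rw [mem_filter] at hn ⊢
    refine ⟨hn.1, ?_⟩
    rintro ⟨t, _, ht⟩
    apply hn.2
    apply hF t
    rw [← tz_side_iter hd hs, ← tz_side_iter hd hs, ht, hdh]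
    push_cast
    rfl
  exact_mod_cast this

/-- the least element `≥ n` of the class of `c` modulo `D` -/
def blk (D c n : ℕ) : ℕ := D * ((n + (D - 1 - c)) / D) + c

theorem blk_self {D c n : ℕ} (hD : 0 < D) (hn : n % D = c) : blk D c n = n := by
  have hc : c < D := hn ▸ Nat.mod_lt _ hD
  have h1 := Nat.div_add_mod n D
  rw [hn] at h1
  unfold blk
  have h2 : (n + (D - 1 - c)) / D = n / D := by
    apply Nat.div_eq_of_lt_le
    · rw [mul_comm]; omega
    · rw [Nat.succ_mul, mul_comm]; omega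
  rw [h2]
  exact h1

theorem blk_succ {D c : ℕ} (hD : 0 < D) (hc : c < D) (n : ℕ) :
    blk D c (n + 1) = blk D c n ∨ (blk D c n = n ∧ blk D c (n + 1) = n + D) := by
  unfold blk
  have e : n + 1 + (D - 1 - c) = (n + (D - 1 - c)) + 1 := by omega
  rw [e]
  set a := n + (D - 1 - c) with ha
  rw [Nat.succ_div]
  by_cases h : D ∣ a + 1
  · right
    rw [if_pos h]
    obtain ⟨j, hj⟩ := h
    have h1 : (a + 1) / D = j := by rw [hj]; exact Nat.mul_div_cancel_left j hD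
    rw [Nat.succ_div, if_pos ⟨j, hj⟩] at h1
    have h2 : D * (a / D) + D = a + 1 := by
      rw [hj, ← h1]; ring
    have h3 : D * (a / D + 1) = D * (a / D) + D := by ring
    rw [h3]
    omega
  · left
    rw [if_neg h, add_zero]

open scoped Classical in
/-- almost invariant under the shift by `D` -/
def StepConst (D : ℕ) (f : ℕ → ℝ) : Prop := ∀ ε : ℝ, 0 < ε → ∃ N₀ : ℕ, ∀ N : ℕ, N₀ ≤ N →
  (((Icc 1 N).filter (fun i => f i ≠ f (i + D))).card : ℝ) ≤ ε * N

theorem locConst_blk {D c : ℕ} (hD : 0 < D) (hc : c < D) {f : ℕ → ℝ} (h : StepConst D f) :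
    LocConst (fun n => f (blk D c n)) := by
  classical
  intro ε hε
  obtain ⟨N₀, hN₀⟩ := h ε hε
  refine ⟨N₀, fun N hN => le_trans ?_ (hN₀ N hN)⟩
  have : ((Icc 1 N).filter (fun i : ℕ => f (blk D c i) ≠ f (blk D c (i + 1)))).card ≤
      ((Icc 1 N).filter (fun i => f i ≠ f (i + D))).card := by
    apply card_le_card
    intro n hn
    rw [mem_filter] at hn ⊢
    refine ⟨hn.1, ?_⟩
    rcases blk_succ hD hc n with h1 | ⟨h1, h2⟩
    · exact absurd (by rw [h1]) hn.2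
    · have := hn.2
      rw [h1, h2] at this
      exact this
  exact_mod_cast this

theorem orth_cls {g : ℕ → ℤ} (hg : SmallAvg g) {D c : ℕ} (hD : 0 < D) (hc : c < D)
    (hgc : ∀ n, g n ≠ 0 → n % D = c) {f : ℕ → ℝ} {B : ℝ} (hB : ∀ n, |f n| ≤ B)
    (h : StepConst D f) :
    Tendsto (fun N : ℕ => (∑ n ∈ Icc 1 N, (g n : ℝ) * f n) / N) atTop (𝓝 0) := by
  have hB0 : 0 ≤ B := (abs_nonneg _).trans (hB 0)
  have hB1 : 0 < B + 1 := by linarith
  have hloc : LocConst (fun n => f (blk D c n) / (B + 1)) := by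
    classical
    intro ε hε
    obtain ⟨N₀, hN₀⟩ := locConst_blk hD hc h ε hε
    refine ⟨N₀, fun N hN => le_trans ?_ (hN₀ N hN)⟩
    have : ((Icc 1 N).filter (fun i : ℕ => f (blk D c i) / (B + 1) ≠
        f (blk D c (i + 1)) / (B + 1))).card ≤
        ((Icc 1 N).filter (fun i : ℕ => f (blk D c i) ≠ f (blk D c (i + 1)))).card := by
      apply card_le_card
      intro n hn
      rw [mem_filter] at hn ⊢
      exact ⟨hn.1, fun h => hn.2 (by rw [h])⟩
    exact_mod_cast this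
  rw [Metric.tendsto_atTop]
  intro ε hε
  obtain ⟨N₁, hN₁⟩ := orth hg (f := fun n => f (blk D c n) / (B + 1))
    (by
      intro n
      rw [abs_div, abs_of_pos hB1, div_le_one hB1]
      have := hB (blk D c n)
      linarith) hloc (ε := ε / (2 * (B + 1))) (by positivity)
  refine ⟨N₁ + 1, fun N hN => ?_⟩
  have hNpos : (0 : ℝ) < N := by
    have : 0 < N := by omega
    exact_mod_cast this
  have h1 := hN₁ N (by omega)
  have h2 : ∑ n ∈ Icc 1 N, (g n : ℝ) * f n =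
      (B + 1) * ∑ m ∈ Icc 1 N, (g m : ℝ) * (f (blk D c m) / (B + 1)) := by
    rw [mul_sum]
    refine sum_congr rfl fun m _ => ?_
    by_cases h0 : g m = 0
    · simp [h0]
    · rw [blk_self hD (hgc m h0)]
      field_simp
  rw [Real.dist_eq, sub_zero, abs_div, abs_of_pos hNpos, div_lt_iff₀ hNpos, h2, abs_mul,
    abs_of_pos hB1]
  calc (B + 1) * |∑ m ∈ Icc 1 N, (g m : ℝ) * (f (blk D c m) / (B + 1))|
      ≤ (B + 1) * (ε / (2 * (B + 1)) * N) := by gcongr
    _ = ε / 2 * N := by field_simp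
    _ < ε * N := by nlinarith

/-- ORTHOGONALITY in residue classes -/
theorem orth_mod {w : ℕ → ℤ} (hw : ∀ Q b : ℕ, 0 < Q →
      SmallAvg (fun n => if n % Q = b % Q then w n else 0)) {D : ℕ} (hD : 0 < D)
    {f : ℕ → ℝ} {B : ℝ} (hB : ∀ n, |f n| ≤ B) (h : StepConst D f) (q a : ℕ) (hq : 0 < q) :
    Tendsto (fun N : ℕ => (∑ n ∈ (Icc 1 N).filter (fun n : ℕ => n % q = a % q),
      (w n : ℝ) * f n) / N) atTop (𝓝 0) := by
  have hlim := tendsto_finset_sum ((range (q * D)).filter (fun b => b % q = a % q))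
    (fun b _ => orth_cls (hw (q * D) b (Nat.mul_pos hq hD)) hD (Nat.mod_lt b hD) (c := b % D)
      (by
        intro n hn
        by_cases h1 : n % (q * D) = b % (q * D)
        · rw [← Nat.mod_mul_left_mod n q D, h1, Nat.mod_mul_left_mod]
        · simp [h1] at hn) hB h)
  rw [sum_const_zero] at hlim
  refine hlim.congr fun N => ?_
  rw [← sum_div]
  congr 1
  rw [sum_comm, sum_filter]
  refine sum_congr rfl fun n _ => ?_
  by_cases h1 : n % q = a % q
  · rw [if_pos h1, sum_eq_single (n % (q * D))]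
    · simp
    · intro b hb hne
      rw [mem_filter, mem_range] at hb
      rw [if_neg]
      · simp
      · rw [Nat.mod_eq_of_lt hb.1]
        exact fun h => hne h.symm
    · intro hn
      exfalso
      apply hn
      rw [mem_filter, mem_range]
      exact ⟨Nat.mod_lt _ (Nat.mul_pos hq hD), by rw [Nat.mod_mul_right_mod, h1]⟩
  · rw [if_neg h1]
    apply sum_eq_zero
    intro b hb
    rw [mem_filter, mem_range] at hb
    rw [if_neg]
    · simp
    · intro h2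
      apply h1
      rw [← Nat.mod_mul_right_mod n q D, h2, Nat.mod_mul_right_mod, hb.2]

theorem stepConst_of {d : ℤ} (hd : d % 2 = 1) {s : ℤ} (hs : s = 1 ∨ s = -1) {F : ℤ → ℝ}
    (hF : ∀ (t : ℕ) (x y : ℤ), (Tz d)^[t] x = (Tz d)^[t] y → F x = F y) :
    StepConst d.natAbs (fun n : ℕ => F (s * (n : ℤ))) := by
  classical
  intro ε hε
  obtain ⟨N₀, hN₀⟩ := loc_count_d hd hs hF hε
  exact ⟨N₀, fun N hN => by simpa using hN₀ N hN⟩

theorem natAbs_pos_of_odd {d : ℤ} (hd : d % 2 = 1) : 0 < d.natAbs := by omega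

theorem liouville_d {d : ℤ} (hd : d % 2 = 1) {s : ℤ} (hs : s = 1 ∨ s = -1) {F : ℤ → ℝ}
    {B : ℝ} (hB : ∀ x, |F x| ≤ B)
    (hF : ∀ (t : ℕ) (x y : ℤ), (Tz d)^[t] x = (Tz d)^[t] y → F x = F y)
    (q a : ℕ) (hq : 0 < q) :
    Tendsto (fun N : ℕ => (∑ n ∈ (Icc 1 N).filter (fun n : ℕ => n % q = a % q),
      (-1 : ℝ) ^ (ArithmeticFunction.cardFactors n) * F (s * (n : ℤ))) / N) atTop (𝓝 0) := by
  refine (orth_mod (w := lam) (fun Q b hQ => gl_small hQ b) (natAbs_pos_of_odd hd)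
    (fun n => hB _) (stepConst_of hd hs hF) q a hq).congr fun N => ?_
  congr 1
  refine sum_congr rfl fun n _ => ?_
  unfold lam
  push_cast
  rfl

theorem moebius_d {d : ℤ} (hd : d % 2 = 1) {s : ℤ} (hs : s = 1 ∨ s = -1) {F : ℤ → ℝ}
    {B : ℝ} (hB : ∀ x, |F x| ≤ B)
    (hF : ∀ (t : ℕ) (x y : ℤ), (Tz d)^[t] x = (Tz d)^[t] y → F x = F y)
    (q a : ℕ) (hq : 0 < q) :
    Tendsto (fun N : ℕ => (∑ n ∈ (Icc 1 N).filter (fun n : ℕ => n % q = a % q),
      (ArithmeticFunction.moebius n : ℝ) * F (s * (n : ℤ))) / N) atTop (𝓝 0) :=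
  orth_mod (w := fun n => ArithmeticFunction.moebius n) (fun Q b hQ => gm_small hQ b)
    (natAbs_pos_of_odd hd) (fun n => hB _) (stepConst_of hd hs hF) q a hq

end Pool.Agent.H426R3.CG
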