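import Pool.Agent.H426R3.CL.Gen

set_option autoImplicit false

/-! # The `3x+d` maps: parity of the number of prime factors of the elements of invariant sets -/

namespace Pool.Agent.H426R3.CG

open Finset Filter Topology Pool.Agent.H376R2.MR Pool.Agent.H426R3.CLoc Pool.Agent.H426R3.CL
open Pool.Agent.H499R2.ND (cnt cnt_eq Td Inv HD dens_side HD_ncard class_pos inv_iter)
open Pool.Agent.H499R2.CO (Tz)

theorem exists_step {D q : ℕ} (hq : 0 < q) (hco : Nat.Coprime D q) (b b' : ℕ) :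
    ∃ j, j < q ∧ (b + j * D) % q = b' % q := by
  haveI : NeZero q := ⟨hq.ne'⟩
  refine ⟨(((b' : ZMod q) - b) * (D : ZMod q)⁻¹).val, ZMod.val_lt _, ?_⟩
  rw [← ZMod.natCast_eq_natCast_iff']
  push_cast
  rw [ZMod.natCast_zmod_val, mul_assoc, mul_comm ((D : ZMod q)⁻¹) _,
    ZMod.coe_mul_inv_eq_one D hco]
  ring

/-- equidistribution in residue classes of a set which is almost invariant under a shift by a
number prime to the modulus -/
theorem prog_step {P : ℕ → Prop} {δ : ℝ} {D : ℕ}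
    (hδ : Tendsto (fun N : ℕ => cnt P N / N) atTop (𝓝 δ))
    (hE : Tendsto (fun N : ℕ => cnt (fun n => ¬ (P n ↔ P (n + D))) N / N) atTop (𝓝 0)) {q : ℕ}
    (hq : 0 < q) (hco : Nat.Coprime D q) (b : ℕ) :
    Tendsto (fun N : ℕ => cnt (fun n => n % q = b % q ∧ P n) N / N) atTop (𝓝 (δ / q)) := by
  classical
  set E : ℕ → ℝ := fun N => cnt (fun n => ¬ (P n ↔ P (n + D))) N with hEd
  have hE0 : ∀ N, 0 ≤ E N := fun N => by simp only [hEd]; rw [cnt_eq]; positivity
  have hstep : ∀ b N : ℕ, cnt (fun n => n % q = b % q ∧ P n) N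
      ≤ cnt (fun n => n % q = (b + D) % q ∧ P n) N + (E N + D) := by
    intro b N
    simp only [hEd]
    rw [cnt_eq, cnt_eq, cnt_eq]
    have hsub : (Icc 1 N).filter (fun n => n % q = b % q ∧ P n) ⊆
        (((Icc 1 N).filter (fun n => n % q = (b + D) % q ∧ P n)).image (fun n => n - D) ∪
        (Icc 1 N).filter (fun n => ¬ (P n ↔ P (n + D)))) ∪ Ioc (N - D) N := by
      intro n hn
      rw [mem_filter, mem_Icc] at hn
      obtain ⟨⟨h1, h2⟩, h3, h4⟩ := hn
      rw [mem_union, mem_union, mem_image, mem_filter, mem_Ioc]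
      by_cases hN : N - D < n
      · exact Or.inr ⟨hN, h2⟩
      · left
        by_cases h5 : P (n + D)
        · left
          refine ⟨n + D, ?_, by omega⟩
          rw [mem_filter, mem_Icc]
          refine ⟨⟨by omega, by omega⟩, ?_, h5⟩
          rw [Nat.add_mod n, Nat.add_mod b, h3]
        · right
          exact ⟨mem_Icc.2 ⟨h1, h2⟩, fun h => h5 (h.1 h4)⟩
    have hc := (card_le_card hsub).trans ((card_union_le _ _).trans
      (Nat.add_le_add_right (card_union_le _ _) _))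
    have h6 : (Ioc (N - D) N).card ≤ D := by rw [Nat.card_Ioc]; omega
    have h7 : (((Icc 1 N).filter (fun n => n % q = (b + D) % q ∧ P n)).image
        (fun n => n - D)).card ≤ ((Icc 1 N).filter (fun n => n % q = (b + D) % q ∧ P n)).card :=
      card_image_le
    have h8 : ((Icc 1 N).filter (fun n => n % q = b % q ∧ P n)).card ≤
        ((Icc 1 N).filter (fun n => n % q = (b + D) % q ∧ P n)).card +
        (((Icc 1 N).filter (fun n => ¬ (P n ↔ P (n + D)))).card + D) := by omega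
    exact_mod_cast h8
  have hsteps : ∀ j b N : ℕ, cnt (fun n => n % q = b % q ∧ P n) N
      ≤ cnt (fun n => n % q = (b + j * D) % q ∧ P n) N + j * (E N + D) := by
    intro j
    induction j with
    | zero => intro b N; simp
    | succ j ih =>
      intro b N
      have h1 := ih b N
      have h2 := hstep (b + j * D) N
      have h3 : b + j * D + D = b + (j + 1) * D := by ring
      rw [h3] at h2
      push_cast
      linarith
  have hcomp : ∀ b b' N : ℕ, cnt (fun n => n % q = b % q ∧ P n) N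
      ≤ cnt (fun n => n % q = b' % q ∧ P n) N + q * (E N + D) := by
    intro b b' N
    obtain ⟨j, hj, hjb⟩ := exists_step hq hco b b'
    have h1 := hsteps j b N
    rw [hjb] at h1
    refine h1.trans ?_
    have h2 : (j : ℝ) ≤ q := by exact_mod_cast hj.le
    have h3 := hE0 N
    have h4 : (j : ℝ) * (E N + D) ≤ q * (E N + D) := by gcongr
    linarith
  have hsum : ∀ N : ℕ, ∑ b' ∈ range q, cnt (fun n => n % q = b' % q ∧ P n) N = cnt P N := by
    intro N
    simp_rw [cnt_eq]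
    rw [← Nat.cast_sum]
    congr 1
    rw [card_eq_sum_card_fiberwise (f := fun n => n % q) (t := range q)
      (s := (Icc 1 N).filter P) (fun n _ => by
        rw [Finset.mem_coe, mem_range]; exact Nat.mod_lt _ hq)]
    refine sum_congr rfl fun b' hb' => ?_
    rw [mem_range] at hb'
    congr 1
    ext n
    rw [mem_filter, mem_filter, mem_filter, Nat.mod_eq_of_lt hb']
    tauto
  have hup : ∀ N : ℕ, |q * cnt (fun n => n % q = b % q ∧ P n) N - cnt P N| ≤
      q * (q * (E N + D)) := by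
    intro N
    rw [← hsum N]
    have e1 : (q : ℝ) * cnt (fun n => n % q = b % q ∧ P n) N =
        ∑ _b' ∈ range q, cnt (fun n => n % q = b % q ∧ P n) N := by
      rw [sum_const, card_range, nsmul_eq_mul]
    rw [e1, ← sum_sub_distrib]
    refine (abs_sum_le_sum_abs _ _).trans ?_
    calc ∑ b' ∈ range q, |cnt (fun n => n % q = b % q ∧ P n) N -
          cnt (fun n => n % q = b' % q ∧ P n) N|
        ≤ ∑ _b' ∈ range q, (q : ℝ) * (E N + D) := by
          refine sum_le_sum fun b' _ => ?_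
          rw [abs_le]
          have h1 := hcomp b b' N
          have h2 := hcomp b' b N
          constructor <;> linarith
      _ = q * (q * (E N + D)) := by rw [sum_const, card_range, nsmul_eq_mul]
  have hq0 : (0 : ℝ) < q := by exact_mod_cast hq
  have hz : Tendsto (fun N : ℕ => (q : ℝ) * (q * (E N / N + D / N))) atTop (𝓝 0) := by
    have h1 : Tendsto (fun N : ℕ => (D : ℝ) / N) atTop (𝓝 0) :=
      tendsto_const_div_atTop_nhds_zero_nat _
    have h2 := ((hE.add h1).const_mul (q : ℝ)).const_mul (q : ℝ)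
    simpa using h2
  have hd : Tendsto (fun N : ℕ => (q * cnt (fun n => n % q = b % q ∧ P n) N - cnt P N) / N)
      atTop (𝓝 0) := by
    apply squeeze_zero_norm' _ hz
    filter_upwards [eventually_ge_atTop 1] with N hN
    have hN0 : (0 : ℝ) < N := by exact_mod_cast hN
    rw [Real.norm_eq_abs, abs_div, abs_of_pos hN0, div_le_iff₀ hN0]
    refine (hup N).trans (le_of_eq ?_)
    field_simp
  have hfin := (hd.add hδ).div_const (q : ℝ)
  rw [zero_add] at hfin
  refine hfin.congr fun N => ?_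
  rw [← add_div, sub_add_cancel, div_div, mul_comm (N : ℝ) q, mul_div_mul_left _ _ hq0.ne']

theorem inv_closed_d {d : ℤ} {S : Set ℤ} (h : ∀ x : ℤ, x ∈ S ↔ Tz d x ∈ S) (t : ℕ) (x y : ℤ)
    (hxy : (Tz d)^[t] x = (Tz d)^[t] y) : x ∈ S ↔ y ∈ S := by
  have hit : ∀ (k : ℕ) (z : ℤ), z ∈ S ↔ (Tz d)^[k] z ∈ S := by
    intro k
    induction k with
    | zero => intro z; rfl
    | succ k ih =>
      intro z
      rw [Function.iterate_succ_apply, ← ih]
      exact h z
  rw [hit t x, hxy, ← hit t y]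

/-- densities of the invariant sets in residue classes with a prescribed parity of the number of
prime factors -/
theorem inv_parity_d {d : ℤ} (hd : d % 2 = 1) (hd3 : ¬ (3 : ℤ) ∣ d) {s : ℤ} (hs : s = 1 ∨ s = -1)
    {S : Set ℤ} (h : ∀ x : ℤ, x ∈ S ↔ Tz d x ∈ S) :
    ∃ δ : ℝ, 0 ≤ δ ∧ δ ≤ 1 ∧ (∀ x ∈ S, 0 < s * x → ¬ (3 : ℤ) ∣ x → 0 < δ) ∧
      (∀ q a : ℕ, 0 < q → Nat.Coprime d.natAbs q → Tendsto (fun N : ℕ =>
        cnt (fun n => n % q = a % q ∧ s * (n : ℤ) ∈ S) N / N) atTop (𝓝 (δ / q))) ∧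
      ∀ q a : ℕ, 0 < q → Nat.Coprime d.natAbs q → ∀ e : ℝ, (e = 1 ∨ e = -1) →
        Tendsto (fun N : ℕ => cnt (fun n => s * (n : ℤ) ∈ S ∧ n % q = a % q ∧
          (-1 : ℝ) ^ (ArithmeticFunction.cardFactors n) = e) N / N) atTop (𝓝 (δ / (2 * q))) := by
  classical
  have hodd : Odd d := Int.odd_iff.2 hd
  have hcop : IsCoprime d 3 := by
    rw [isCoprime_comm]
    exact (Int.prime_three.coprime_iff_not_dvd).2 hd3
  have hi : Inv d S := h
  obtain ⟨δ, hδ0, hδ1, hδ⟩ := dens_side hodd hcop hs hi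
  have hlim : Tendsto (fun N : ℕ => cnt (fun n : ℕ => s * (n : ℤ) ∈ S) N / N) atTop (𝓝 δ) := by
    refine (HD_ncard hs hδ).congr fun N => ?_
    rw [side_ncard hs]
  have hE : Tendsto (fun N : ℕ => cnt (fun n : ℕ => ¬ (s * (n : ℤ) ∈ S ↔
      s * ((n + d.natAbs : ℕ) : ℤ) ∈ S)) N / N) atTop (𝓝 0) := by
    rw [Metric.tendsto_atTop]
    intro ε hε
    obtain ⟨N₀, hN₀⟩ := loc_count_d hd hs (F := fun x => (x ∈ S : Prop))
      (fun t x y hxy => propext (inv_closed_d h t x y hxy)) (ε := ε / 2) (by positivity)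
    refine ⟨N₀ + 1, fun N hN => ?_⟩
    have hNpos : (0 : ℝ) < N := by
      have : 0 < N := by omega
      exact_mod_cast this
    have h1 := hN₀ N (by omega)
    have h2 : cnt (fun n : ℕ => ¬ (s * (n : ℤ) ∈ S ↔ s * ((n + d.natAbs : ℕ) : ℤ) ∈ S)) N ≤
        ε / 2 * N := by
      rw [cnt_eq]
      refine le_trans (le_of_eq ?_) h1
      congr 2
      ext n
      simp only [mem_filter, ne_eq, eq_iff_iff]
    have h3 : 0 ≤ cnt (fun n : ℕ => ¬ (s * (n : ℤ) ∈ S ↔
        s * ((n + d.natAbs : ℕ) : ℤ) ∈ S)) N := by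
      unfold Pool.Agent.H499R2.ND.cnt
      positivity
    rw [Real.dist_eq, sub_zero, abs_of_nonneg (by positivity), div_lt_iff₀ hNpos]
    refine lt_of_le_of_lt h2 ?_
    nlinarith
  have hcls : ∀ q a : ℕ, 0 < q → Nat.Coprime d.natAbs q → Tendsto (fun N : ℕ =>
        cnt (fun n => n % q = a % q ∧ s * (n : ℤ) ∈ S) N / N) atTop (𝓝 (δ / q)) :=
    fun q a hq hco => prog_step hlim hE hq hco a
  refine ⟨δ, hδ0, hδ1, fun x hx hx2 hx3 => class_pos hodd hd3 hs hi hx hx2 hx3 hδ, hcls, ?_⟩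
  intro q a hq hco e he
  have h4 := hcls q a hq hco
  have h5 := liouville_d hd hs (F := fun x => if x ∈ S then (1 : ℝ) else 0) (B := 1)
    (by intro x; split_ifs <;> simp)
    (by intro t x y hxy; simp only [inv_closed_d h t x y hxy]) q a hq
  have h6 := (h4.add (h5.const_mul e)).div_const 2
  have e1 : (δ / q + e * 0) / 2 = δ / (2 * q) := by
    rw [mul_zero, add_zero, div_div]
    congr 1
    ring
  rw [e1] at h6
  refine h6.congr fun N => ?_
  rw [cnt_eq, cnt_eq, ← mul_div_assoc, ← add_div, div_div, mul_comm (N : ℝ) 2, ← div_div]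
  congr 1
  have e2 : (((Icc 1 N).filter (fun n : ℕ => s * (n : ℤ) ∈ S ∧ n % q = a % q ∧
          (-1 : ℝ) ^ (ArithmeticFunction.cardFactors n) = e)).card : ℝ) =
      ∑ n ∈ (Icc 1 N).filter (fun n : ℕ => n % q = a % q ∧ s * (n : ℤ) ∈ S),
        (if (-1 : ℝ) ^ (ArithmeticFunction.cardFactors n) = e then (1 : ℝ) else 0) := by
    rw [card_filter, sum_filter]
    push_cast
    refine sum_congr rfl fun n _ => ?_
    by_cases a1 : n % q = a % q <;> by_cases a2 : s * (n : ℤ) ∈ S <;>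
      by_cases a3 : (-1 : ℝ) ^ (ArithmeticFunction.cardFactors n) = e <;> simp [a1, a2, a3]
  rw [e2]
  simp_rw [sgn_split _ he]
  rw [← sum_div, sum_add_distrib, sum_const, nsmul_eq_mul, mul_one, ← mul_sum]
  congr 3
  rw [sum_filter, sum_filter]
  refine sum_congr rfl fun n _ => ?_
  by_cases a1 : n % q = a % q <;> by_cases a2 : s * (n : ℤ) ∈ S <;> simp [a1, a2]

theorem exists_prime3_d {d : ℤ} (hd : d % 2 = 1) (hd3 : ¬ (3 : ℤ) ∣ d) (a : ℤ) (ha : a ≠ 0) :
    ∃ k : ℕ, ¬ (3 : ℤ) ∣ (Tz d)^[k] a :=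
  Pool.Agent.H499R2.ND.exists_prime3' (Int.odd_iff.2 hd) hd3 _ a ha le_rfl

/-- SUFFICIENT SETS -/
theorem sufficient_d {d : ℤ} (hd : d % 2 = 1) (hd3 : ¬ (3 : ℤ) ∣ d) {S : Set ℤ}
    (h : ∀ x : ℤ, x ∈ S ↔ Tz d x ∈ S) {q a : ℕ} (hq : 0 < q) (hco : Nat.Coprime d.natAbs q)
    {e : ℝ} (he : e = 1 ∨ e = -1)
    (H : ∀ x : ℤ, x ≠ 0 → x.natAbs % q = a % q →
      (-1 : ℝ) ^ (ArithmeticFunction.cardFactors x.natAbs) = e → x ∈ S) :
    ∀ x : ℤ, x ≠ 0 → x ∈ S := by
  intro x hx
  by_contra hxS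
  have hc : ∀ x : ℤ, x ∈ Sᶜ ↔ Tz d x ∈ Sᶜ := fun x => not_congr (h x)
  obtain ⟨j, hj⟩ := exists_prime3_d hd hd3 x hx
  set y := (Tz d)^[j] x with hy
  have hyS : y ∈ Sᶜ := by
    have hi : Inv d Sᶜ := hc
    exact (inv_iter hi j x).1 hxS
  have hy0 : y ≠ 0 := fun h0 => hj (by rw [h0]; exact dvd_zero _)
  obtain ⟨s, hs, hsy⟩ : ∃ s : ℤ, (s = 1 ∨ s = -1) ∧ 0 < s * y := by
    rcases lt_or_gt_of_ne hy0 with h | h
    · exact ⟨-1, Or.inr rfl, by omega⟩
    · exact ⟨1, Or.inl rfl, by omega⟩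
  obtain ⟨δ, _, _, hpos, _, hpar⟩ := inv_parity_d hd hd3 hs hc
  have hδ : 0 < δ := hpos y hyS hsy hj
  have h4 := hpar q a hq hco e he
  have h5 : ∀ N : ℕ, cnt (fun n : ℕ => s * (n : ℤ) ∈ Sᶜ ∧ n % q = a % q ∧
      (-1 : ℝ) ^ (ArithmeticFunction.cardFactors n) = e) N / N = 0 := by
    intro N
    have h6 : {n : ℕ | 1 ≤ n ∧ n ≤ N ∧ s * (n : ℤ) ∈ Sᶜ ∧ n % q = a % q ∧
        (-1 : ℝ) ^ (ArithmeticFunction.cardFactors n) = e} = ∅ := by
      ext n
      simp only [Set.mem_setOf_eq, Set.mem_empty_iff_false, iff_false]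
      rintro ⟨a1, -, a2, a3, a4⟩
      apply a2
      have hn : (s * (n : ℤ)).natAbs = n := by rcases hs with rfl | rfl <;> simp
      apply H _ (by rcases hs with rfl | rfl <;> omega)
      · rw [hn]; exact a3
      · rw [hn]; exact a4
    unfold Pool.Agent.H499R2.ND.cnt
    rw [h6]
    simp
  simp_rw [h5] at h4
  have h7 := tendsto_nhds_unique h4 tendsto_const_nhds
  have hq0 : (0 : ℝ) < q := by exact_mod_cast hq
  have h8 : 0 < δ / (2 * q) := by positivity
  linarith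

end Pool.Agent.H426R3.CG
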