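import Pool.Agent.H970R2.X.Defs
import Pool.Agent.H376R2.MR.Fej
import Pool.Agent.H376R2.MR.Ls

set_option autoImplicit false

/-! # Slowly varying weights and functions with small Dirichlet polynomials -/

namespace Pool.Agent.H426R3.CL

open Finset MeasureTheory Pool.Agent.H376R2.MR Pool.Agent.H970R2.X

theorem Fj_cont (K : ℕ) : Continuous (fun u : ℝ => Fj K u) := by
  unfold Fj
  fun_prop

/-- the Fejer kernel over a period -/
theorem Fj_int {K : ℕ} (hK : 1 ≤ K) : ∫ u in (-Real.pi)..Real.pi, Fj K u = 2 * Real.pi := by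
  unfold Fj
  rw [intervalIntegral.integral_finsetSum]
  · rw [Finset.sum_eq_single (0 : ℤ)]
    · simp
      ring
    · intro k _ hk
      rw [intervalIntegral.integral_const_mul]
      have hk' : (k : ℝ) ≠ 0 := by exact_mod_cast hk
      have h1 : ∫ u in (-Real.pi)..Real.pi, Real.cos ((k : ℝ) * u) = 0 := by
        rw [intervalIntegral.integral_comp_mul_left (fun x => Real.cos x) hk', integral_cos]
        have e1 : Real.sin ((k : ℝ) * Real.pi) = 0 := Real.sin_int_mul_pi k
        have e2 : Real.sin ((k : ℝ) * -Real.pi) = 0 := by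
          rw [mul_neg, Real.sin_neg, e1, neg_zero]
        rw [e1, e2]
        simp
      rw [h1, mul_zero]
    · intro h
      exfalso
      apply h
      rw [FK, mem_Ioo]
      constructor
      · have : (0 : ℤ) < K := by exact_mod_cast hK
        omega
      · exact_mod_cast hK
  · intro k _
    apply Continuous.intervalIntegrable
    fun_prop

theorem dom_int {ρ : ℝ} (hρ : 0 < ρ) :
    ∫ u in (-Real.pi)..Real.pi, (ρ ^ 2 + u ^ 2)⁻¹ ≤ Real.pi / ρ := by
  have h1 : ∀ u : ℝ, (ρ ^ 2 + u ^ 2)⁻¹ = (ρ ^ 2)⁻¹ * (1 + (u / ρ) ^ 2)⁻¹ := by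
    intro u
    rw [← mul_inv]
    congr 1
    field_simp
  simp_rw [h1]
  rw [intervalIntegral.integral_const_mul,
    intervalIntegral.integral_comp_div (fun x => (1 + x ^ 2)⁻¹) hρ.ne', integral_inv_one_add_sq]
  have h2 : Real.arctan (Real.pi / ρ) - Real.arctan (-Real.pi / ρ) ≤ Real.pi := by
    have a1 := Real.arctan_lt_pi_div_two (Real.pi / ρ)
    have a2 := Real.neg_pi_div_two_lt_arctan (-Real.pi / ρ)
    linarith
  rw [smul_eq_mul]
  calc (ρ ^ 2)⁻¹ * (ρ * (Real.arctan (Real.pi / ρ) - Real.arctan (-Real.pi / ρ)))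
      ≤ (ρ ^ 2)⁻¹ * (ρ * Real.pi) := by gcongr
    _ = Real.pi / ρ := by field_simp

theorem Fj_dom {K : ℕ} (hK : 1 ≤ K) {ρ u : ℝ} (hρ : 0 < ρ) (h1 : ρ ≤ |u|) (h2 : |u| ≤ Real.pi) :
    Fj K u ≤ (2 * Real.pi ^ 2 / K) * (ρ ^ 2 + u ^ 2)⁻¹ := by
  have hu : u ≠ 0 := by
    rintro rfl
    rw [abs_zero] at h1
    linarith
  have hK0 : (0 : ℝ) < K := by exact_mod_cast hK
  have hu2 : 0 < u ^ 2 := by positivity
  have h3 : ρ ^ 2 ≤ u ^ 2 := by
    rw [← sq_abs u]
    gcongr
  refine (Fj_le_sq hK hu h2).trans ?_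
  rw [← div_eq_mul_inv, div_div, div_le_div_iff₀ (by positivity) (by positivity)]
  have hpi := Real.pi_pos
  nlinarith [mul_le_mul_of_nonneg_left h3 (show 0 ≤ Real.pi ^ 2 * K by positivity)]

theorem one_point {K : ℕ} (hK : 1 ≤ K) {x ρ E β : ℝ} (hx : |x| ≤ 1) (hρ : 0 < ρ) (hρ1 : ρ ≤ 1)
    (b : ℝ → ℝ) (hbm : Measurable b) (hb : ∀ t, |b t| ≤ 1) (hβ : |β| ≤ 1) (hE : 0 ≤ E)
    (hnear : ∀ t, |x + t| ≤ ρ → |b t - β| ≤ E) :
    |(∫ t in (-2 : ℝ)..2, b t * Fj K (x + t)) - 2 * Real.pi * β| ≤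
      2 * Real.pi * E + 4 * Real.pi ^ 3 / (K * ρ) := by
  have hpi3 := Real.pi_gt_three
  have hK0 : (0 : ℝ) < K := by exact_mod_cast hK
  obtain ⟨hx1, hx2⟩ := abs_le.1 hx
  set F : ℝ → ℝ := fun u => (2 * Real.pi ^ 2 / K) * (ρ ^ 2 + u ^ 2)⁻¹ with hF
  have hF0 : ∀ u, 0 ≤ F u := fun u => by
    simp only [hF]
    positivity
  have hFc : Continuous F := by
    simp only [hF]
    apply Continuous.mul continuous_const
    apply Continuous.inv₀ (by fun_prop)
    intro u
    positivity
  have hFj0 : ∀ u, 0 ≤ Fj K u := fun u => Fj_nonneg K u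
  have hFjc := Fj_cont K
  -- change of variable
  have hcv : (∫ t in (-2 : ℝ)..2, b t * Fj K (x + t)) =
      ∫ u in (x - 2)..(x + 2), b (u - x) * Fj K u := by
    have h := intervalIntegral.integral_comp_add_left (fun u => b (u - x) * Fj K u) x
      (a := (-2 : ℝ)) (b := 2)
    simp only [add_sub_cancel_left] at h
    rw [h]
    rfl
  have hbi : ∀ p q : ℝ, IntervalIntegrable (fun u => b (u - x) * Fj K u) volume p q := by
    intro p q
    have h1 : IntervalIntegrable (fun u => Fj K u) volume p q := hFjc.intervalIntegrable _ _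
    refine h1.mono_fun ?_ ?_
    · exact ((hbm.comp (measurable_id.sub_const x)).mul hFjc.measurable).aestronglyMeasurable
    · filter_upwards with u
      rw [Real.norm_eq_abs, Real.norm_eq_abs, abs_mul]
      calc |b (u - x)| * |Fj K u| ≤ 1 * |Fj K u| := by gcongr; exact hb _
        _ = |Fj K u| := one_mul _
  have hFi : ∀ p q : ℝ, IntervalIntegrable F volume p q := fun p q => hFc.intervalIntegrable _ _
  have hFji : ∀ p q : ℝ, IntervalIntegrable (fun u => Fj K u) volume p q := fun p q =>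
    hFjc.intervalIntegrable _ _
  have h2pi := Fj_int hK
  have hsplit : (∫ u in (-Real.pi)..(x - 2), Fj K u) + (∫ u in (x - 2)..(x + 2), Fj K u) +
      (∫ u in (x + 2)..Real.pi, Fj K u) = 2 * Real.pi := by
    rw [intervalIntegral.integral_add_adjacent_intervals (hFji _ _) (hFji _ _),
      intervalIntegral.integral_add_adjacent_intervals (hFji _ _) (hFji _ _), h2pi]
  have hsplitF : (∫ u in (-Real.pi)..(x - 2), F u) + (∫ u in (x - 2)..(x + 2), F u) +
      (∫ u in (x + 2)..Real.pi, F u) = ∫ u in (-Real.pi)..Real.pi, F u := by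
    rw [intervalIntegral.integral_add_adjacent_intervals (hFi _ _) (hFi _ _),
      intervalIntegral.integral_add_adjacent_intervals (hFi _ _) (hFi _ _)]
  have hFint : ∫ u in (-Real.pi)..Real.pi, F u ≤ 2 * Real.pi ^ 3 / (K * ρ) := by
    simp only [hF]
    rw [intervalIntegral.integral_const_mul]
    calc 2 * Real.pi ^ 2 / K * ∫ u in (-Real.pi)..Real.pi, (ρ ^ 2 + u ^ 2)⁻¹
        ≤ 2 * Real.pi ^ 2 / K * (Real.pi / ρ) := by
          gcongr
          exact dom_int hρ
      _ = 2 * Real.pi ^ 3 / (K * ρ) := by field_simp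
  -- outer parts
  have ho1 : (∫ u in (-Real.pi)..(x - 2), Fj K u) ≤ ∫ u in (-Real.pi)..(x - 2), F u := by
    apply intervalIntegral.integral_mono_on (by linarith) (hFji _ _) (hFi _ _)
    intro u hu
    have h1 : |u| = -u := abs_of_nonpos (by linarith [hu.2])
    exact Fj_dom hK hρ (by rw [h1]; linarith [hu.2]) (by rw [h1]; linarith [hu.1])
  have ho2 : (∫ u in (x + 2)..Real.pi, Fj K u) ≤ ∫ u in (x + 2)..Real.pi, F u := by
    apply intervalIntegral.integral_mono_on (by linarith) (hFji _ _) (hFi _ _)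
    intro u hu
    have h1 : |u| = u := abs_of_nonneg (by linarith [hu.1])
    exact Fj_dom hK hρ (by rw [h1]; linarith [hu.1]) (by rw [h1]; linarith [hu.2])
  have ho1' : 0 ≤ ∫ u in (-Real.pi)..(x - 2), Fj K u :=
    intervalIntegral.integral_nonneg (by linarith) (fun u _ => hFj0 u)
  have ho2' : 0 ≤ ∫ u in (x + 2)..Real.pi, Fj K u :=
    intervalIntegral.integral_nonneg (by linarith) (fun u _ => hFj0 u)
  have hm' : 0 ≤ ∫ u in (x - 2)..(x + 2), F u :=
    intervalIntegral.integral_nonneg (by linarith) (fun u _ => hF0 u)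
  have ho1F : 0 ≤ ∫ u in (-Real.pi)..(x - 2), F u :=
    intervalIntegral.integral_nonneg (by linarith) (fun u _ => hF0 u)
  have ho2F : 0 ≤ ∫ u in (x + 2)..Real.pi, F u :=
    intervalIntegral.integral_nonneg (by linarith) (fun u _ => hF0 u)
  -- the inner part
  have hinner : |∫ u in (x - 2)..(x + 2), (b (u - x) - β) * Fj K u| ≤
      E * (∫ u in (x - 2)..(x + 2), Fj K u) + 2 * ∫ u in (x - 2)..(x + 2), F u := by
    have h1 : |∫ u in (x - 2)..(x + 2), (b (u - x) - β) * Fj K u| ≤
        ∫ u in (x - 2)..(x + 2), (E * Fj K u + 2 * F u) := by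
      have h2 := intervalIntegral.norm_integral_le_of_norm_le (μ := volume)
        (f := fun u => (b (u - x) - β) * Fj K u) (g := fun u => E * Fj K u + 2 * F u)
        (a := x - 2) (b := x + 2) (by linarith) ?_ ?_
      · rw [Real.norm_eq_abs] at h2
        exact h2
      · filter_upwards with u hu
        rw [Real.norm_eq_abs, abs_mul, abs_of_nonneg (hFj0 u)]
        by_cases hc : |u| ≤ ρ
        · have h3 : |b (u - x) - β| ≤ E := hnear (u - x) (by
            rw [show x + (u - x) = u by ring]; exact hc)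
          have h4 := mul_le_mul_of_nonneg_right h3 (hFj0 u)
          have h5 := hF0 u
          linarith
        · push Not at hc
          have h3 : |b (u - x) - β| ≤ 2 := by
            refine (abs_sub _ _).trans ?_
            have := hb (u - x)
            linarith
          have h4 : Fj K u ≤ F u := Fj_dom hK hρ hc.le (by
            rw [abs_le]
            constructor
            · linarith [hu.1]
            · linarith [hu.2])
          have h5 : |b (u - x) - β| * Fj K u ≤ 2 * F u :=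
            mul_le_mul h3 h4 (hFj0 u) (by norm_num)
          have h6 : 0 ≤ E * Fj K u := mul_nonneg hE (hFj0 u)
          linarith
      · exact ((hFji _ _).const_mul E).add ((hFi _ _).const_mul 2)
    rw [intervalIntegral.integral_add ((hFji _ _).const_mul E) ((hFi _ _).const_mul 2),
      intervalIntegral.integral_const_mul, intervalIntegral.integral_const_mul] at h1
    exact h1
  have heq : (∫ u in (x - 2)..(x + 2), b (u - x) * Fj K u) =
      (∫ u in (x - 2)..(x + 2), (b (u - x) - β) * Fj K u) +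
        β * ∫ u in (x - 2)..(x + 2), Fj K u := by
    rw [← intervalIntegral.integral_const_mul, ← intervalIntegral.integral_add]
    · congr 1
      ext u
      ring
    · have := (hbi (x - 2) (x + 2)).sub ((hFji (x - 2) (x + 2)).const_mul β)
      refine this.congr ?_
      intro u _
      simp only
      ring
    · exact (hFji _ _).const_mul β
  rw [hcv, heq]
  have hJ : (∫ u in (x - 2)..(x + 2), Fj K u) ≤ 2 * Real.pi := by linarith
  have h7 : |(∫ u in (x - 2)..(x + 2), (b (u - x) - β) * Fj K u) +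
        β * (∫ u in (x - 2)..(x + 2), Fj K u) - 2 * Real.pi * β| ≤
      |∫ u in (x - 2)..(x + 2), (b (u - x) - β) * Fj K u| +
        |β| * ((∫ u in (-Real.pi)..(x - 2), Fj K u) + ∫ u in (x + 2)..Real.pi, Fj K u) := by
    have e : (∫ u in (x - 2)..(x + 2), (b (u - x) - β) * Fj K u) +
        β * (∫ u in (x - 2)..(x + 2), Fj K u) - 2 * Real.pi * β =
        (∫ u in (x - 2)..(x + 2), (b (u - x) - β) * Fj K u) +
        -(β * ((∫ u in (-Real.pi)..(x - 2), Fj K u) + ∫ u in (x + 2)..Real.pi, Fj K u)) := by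
      linear_combination β * hsplit
    rw [e]
    refine (abs_add_le _ _).trans ?_
    rw [abs_neg, abs_mul, abs_of_nonneg (add_nonneg ho1' ho2')]
  have h8 : |β| * ((∫ u in (-Real.pi)..(x - 2), Fj K u) + ∫ u in (x + 2)..Real.pi, Fj K u) ≤
      (∫ u in (-Real.pi)..(x - 2), F u) + ∫ u in (x + 2)..Real.pi, F u := by
    calc _ ≤ 1 * ((∫ u in (-Real.pi)..(x - 2), Fj K u) + ∫ u in (x + 2)..Real.pi, Fj K u) := by
          gcongr
      _ ≤ _ := by linarith
  have h9 : E * (∫ u in (x - 2)..(x + 2), Fj K u) ≤ E * (2 * Real.pi) :=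
    mul_le_mul_of_nonneg_left hJ hE
  have h10 : 4 * Real.pi ^ 3 / (K * ρ) = 2 * (2 * Real.pi ^ 3 / (K * ρ)) := by ring
  rw [h10]
  linarith

theorem bw_nonneg' {Y : ℝ} (m : ℕ) : 0 ≤ bw Y m := by
  unfold bw w
  positivity

theorem bw_zero {Y : ℝ} {m : ℕ} (h : 1 ≤ |Real.log m - Real.log Y|) : bw Y m = 0 := by
  unfold bw w
  rw [max_eq_left (by linarith), zero_div]

theorem bw_le {Y : ℝ} (hY : 0 < Y) {m : ℕ} (hm : 1 ≤ m) : bw Y m ≤ Real.exp 1 / Y := by
  have hm0 : (0 : ℝ) < m := by exact_mod_cast hm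
  by_cases h : 1 ≤ |Real.log m - Real.log Y|
  · rw [bw_zero h]
    positivity
  · push Not at h
    have h1 := (abs_lt.1 h).1
    have h2 : Real.log Y ≤ Real.log (Real.exp 1 * m) := by
      rw [Real.log_mul (Real.exp_pos 1).ne' hm0.ne', Real.log_exp]
      linarith
    have h3 : Y ≤ Real.exp 1 * m := (Real.log_le_log_iff hY (by positivity)).1 h2
    unfold bw
    rw [div_le_div_iff₀ hm0 hY]
    have h4 : w (Real.log m - Real.log Y) ≤ 1 := by
      unfold w
      apply max_le (by norm_num)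
      have := abs_nonneg (Real.log m - Real.log Y)
      linarith
    calc w (Real.log m - Real.log Y) * Y ≤ 1 * Y := by gcongr
      _ ≤ _ := by linarith

theorem bw_sum {Y : ℝ} (hY : 0 < Y) (s : Finset ℕ) (hs : ∀ m ∈ s, 1 ≤ m) :
    ∑ m ∈ s, bw Y m ≤ s.card * (Real.exp 1 / Y) := by
  rw [← nsmul_eq_mul, ← sum_const]
  exact sum_le_sum fun m hm => bw_le hY (hs m hm)

theorem ch_add' (k : ℤ) (s t : ℝ) : ch k (s + t) = ch k s * ch k t := by
  unfold ch
  rw [← Complex.exp_add]
  congr 1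
  push_cast
  ring

theorem ch_norm' (k : ℤ) (s : ℝ) : ‖ch k s‖ = 1 := by
  unfold ch
  rw [show -(((k : ℝ) * s : ℝ) : ℂ) * Complex.I = ((-((k : ℝ) * s) : ℝ) : ℂ) * Complex.I by
    push_cast; ring]
  exact Complex.norm_exp_ofReal_mul_I _

/-- the function `G` whose Fourier coefficients are the small Dirichlet polynomials -/
theorem G_eq (g : ℕ → ℤ) (K : ℕ) (Y t : ℝ) :
    ((∑ m ∈ WN Y, (g m : ℝ) * bw Y m * Fj K (Real.log m - Real.log Y + t) : ℝ) : ℂ) =
      ∑ k ∈ FK K, (((1 - |(k : ℝ)| / K : ℝ) : ℂ) * GGg g Y k * ch k (-Real.log Y)) * ch k t := by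
  push_cast
  have h1 : ∀ m ∈ WN Y, ((g m : ℂ) * (bw Y m : ℂ) * (Fj K (Real.log m - Real.log Y + t) : ℂ)) =
      ∑ k ∈ FK K, ((1 - |(k : ℝ)| / K : ℝ) : ℂ) * ((g m : ℂ) * (bw Y m : ℂ) *
        ch k (Real.log m)) * ch k (-Real.log Y) * ch k t := by
    intro m _
    rw [← fej_exp, mul_sum]
    refine sum_congr rfl fun k _ => ?_
    have e : Complex.exp (-(((k : ℝ) * (Real.log m - Real.log Y + t) : ℝ) : ℂ) * Complex.I) =
        ch k (Real.log m) * ch k (-Real.log Y) * ch k t := by
      rw [← ch_add', ← ch_add']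
      unfold ch
      rw [← sub_eq_add_neg]
    have e2 : Complex.exp (-((k * (Real.log m - Real.log Y + t) : ℝ) : ℂ) * Complex.I) =
        ch k (Real.log m) * ch k (-Real.log Y) * ch k t := e
    rw [e2]
    ring
  rw [sum_congr rfl h1, sum_comm]
  refine sum_congr rfl fun k _ => ?_
  unfold GGg DP
  rw [← sum_mul, ← sum_mul, ← mul_sum]
  push_cast
  ring

theorem G_int (g : ℕ → ℤ) {K : ℕ} (hK : 1 ≤ K) {Y lam : ℝ} (hlam : 0 < lam)
    (hG : ∑ k ∈ FK K, ‖GGg g Y k‖ ^ 2 ≤ lam ^ 2) (b : ℝ → ℝ)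
    (hb : ∀ t, |b t| ≤ 1) :
    |∫ t in (-2 : ℝ)..2, b t * ∑ m ∈ WN Y, (g m : ℝ) * bw Y m *
      Fj K (Real.log m - Real.log Y + t)| ≤ 2 * Real.pi * lam := by
  have hpi3 := Real.pi_gt_three
  set G : ℝ → ℝ := fun t => ∑ m ∈ WN Y, (g m : ℝ) * bw Y m *
      Fj K (Real.log m - Real.log Y + t) with hGd
  have hGc : Continuous G := by
    simp only [hGd]
    apply continuous_finsetSum
    intro m _
    exact continuous_const.mul ((Fj_cont K).comp (continuous_const.add continuous_id))
  have hsq : ∫ t in (-Real.pi)..Real.pi, (G t) ^ 2 ≤ 2 * Real.pi * lam ^ 2 := by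
    have h1 : ∀ t, (G t) ^ 2 = ‖∑ k ∈ FK K,
        (((1 - |(k : ℝ)| / K : ℝ) : ℂ) * GGg g Y k * ch k (-Real.log Y)) * ch k t‖ ^ 2 := by
      intro t
      rw [← G_eq, Complex.norm_real, Real.norm_eq_abs, sq_abs]
    simp_rw [h1]
    rw [ls_par]
    apply mul_le_mul_of_nonneg_left _ (by positivity)
    refine le_trans (sum_le_sum fun k hk => ?_) hG
    rw [norm_mul, norm_mul, ch_norm', mul_one, Complex.norm_real, Real.norm_eq_abs]
    have hK0 : (0 : ℝ) < K := by exact_mod_cast hK
    have hkK : |(k : ℝ)| / K ≤ 1 := by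
      rw [div_le_one hK0]
      rw [FK, mem_Ioo] at hk
      rw [abs_le]
      constructor
      · have : (-(K : ℤ) : ℤ) ≤ k := hk.1.le
        exact_mod_cast this
      · have : k ≤ (K : ℤ) := hk.2.le
        exact_mod_cast this
    have h0 : 0 ≤ |(k : ℝ)| / K := by positivity
    have h2 : |1 - |(k : ℝ)| / K| ≤ 1 := by
      rw [abs_le]
      constructor <;> linarith
    calc (|1 - |(k : ℝ)| / K| * ‖GGg g Y k‖) ^ 2 ≤ (1 * ‖GGg g Y k‖) ^ 2 := by gcongr
      _ = ‖GGg g Y k‖ ^ 2 := by rw [one_mul]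
  have hGi : ∀ p q : ℝ, IntervalIntegrable (fun t => |G t|) volume p q := fun p q =>
    (hGc.abs).intervalIntegrable _ _
  have h1 : |∫ t in (-2 : ℝ)..2, b t * G t| ≤ ∫ t in (-2 : ℝ)..2, |G t| := by
    have h2 := intervalIntegral.norm_integral_le_of_norm_le (μ := volume)
      (f := fun t => b t * G t) (g := fun t => |G t|) (a := (-2 : ℝ)) (b := 2) (by norm_num) ?_
      (hGi _ _)
    · rw [Real.norm_eq_abs] at h2
      exact h2
    · filter_upwards with t _
      rw [Real.norm_eq_abs, abs_mul]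
      calc |b t| * |G t| ≤ 1 * |G t| := by gcongr; exact hb t
        _ = |G t| := one_mul _
  have h2 : ∫ t in (-2 : ℝ)..2, |G t| ≤ ∫ t in (-Real.pi)..Real.pi, |G t| := by
    apply intervalIntegral.integral_mono_interval (by linarith) (by norm_num) (by linarith) _ (hGi _ _)
    filter_upwards with t
    exact abs_nonneg _
  have h3 : ∫ t in (-Real.pi)..Real.pi, |G t| ≤
      ∫ t in (-Real.pi)..Real.pi, ((1 / (2 * lam)) * (G t) ^ 2 + lam / 2) := by
    apply intervalIntegral.integral_mono_on (by linarith) (hGi _ _)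
    · apply Continuous.intervalIntegrable
      fun_prop
    · intro t _
      have h4 : (|G t| - lam) ^ 2 ≥ 0 := sq_nonneg _
      have h5 : |G t| ^ 2 = G t ^ 2 := sq_abs _
      have h6 : (1 / (2 * lam)) * (G t) ^ 2 + lam / 2 - |G t| = (|G t| - lam) ^ 2 / (2 * lam) := by
        rw [sub_sq, h5]
        field_simp
        ring
      have h7 : 0 ≤ (|G t| - lam) ^ 2 / (2 * lam) := by positivity
      linarith
  have h4 : ∫ t in (-Real.pi)..Real.pi, ((1 / (2 * lam)) * (G t) ^ 2 + lam / 2) =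
      (1 / (2 * lam)) * (∫ t in (-Real.pi)..Real.pi, (G t) ^ 2) + Real.pi * lam := by
    rw [intervalIntegral.integral_add, intervalIntegral.integral_const_mul,
      intervalIntegral.integral_const, smul_eq_mul]
    · ring
    · apply Continuous.intervalIntegrable
      fun_prop
    · exact intervalIntegrable_const
  have h5 : (1 / (2 * lam)) * (∫ t in (-Real.pi)..Real.pi, (G t) ^ 2) ≤ Real.pi * lam := by
    calc (1 / (2 * lam)) * (∫ t in (-Real.pi)..Real.pi, (G t) ^ 2)
        ≤ (1 / (2 * lam)) * (2 * Real.pi * lam ^ 2) := by gcongr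
      _ = Real.pi * lam := by field_simp
  linarith

/-- THE KEY ESTIMATE -/
theorem key (g : ℕ → ℤ) (hgb : Bdd g) {K : ℕ} (hK : 1 ≤ K) {Y lam : ℝ} (hY : 1 ≤ Y)
    (hlam : 0 < lam) (hG : ∑ k ∈ FK K, ‖GGg g Y k‖ ^ 2 ≤ lam ^ 2) (β : ℕ → ℝ)
    (hβ : ∀ m, |β m| ≤ 1) {D : ℕ} (hD : 2 ≤ D) (hDY : (D : ℝ) ≤ Y) {ε : ℝ} (hε : 0 ≤ ε)
    (E : Finset ℕ)
    (hE : ∀ m ∈ WN Y, m ∉ E → ∀ j : ℕ, |(j : ℝ) - m| ≤ D → |β j - β m| ≤ ε) :
    |∑ m ∈ WN Y, (g m : ℝ) * bw Y m * β m| ≤
      lam + 8 * ε + 8000 * Y / (K * D) + 6 * E.card / Y := by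
  classical
  have hpi3 := Real.pi_gt_three
  have hpi4 := Real.pi_lt_d2
  have hY0 : 0 < Y := by linarith
  have hK0 : (0 : ℝ) < K := by exact_mod_cast hK
  have hD2 : (2 : ℝ) ≤ D := by exact_mod_cast hD
  have he : Real.exp 1 < 2.72 := by
    have := Real.exp_one_lt_d9
    linarith
  have he0 := Real.exp_pos 1
  set ρ : ℝ := (D - 1) / (6 * Y) with hρd
  have hρ0 : 0 < ρ := by
    rw [hρd]
    apply div_pos (by linarith) (by positivity)
  have hρ1 : ρ ≤ 1 := by
    rw [hρd, div_le_one (by positivity)]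
    linarith
  set b : ℝ → ℝ := fun t => β ⌊Y * Real.exp (-t)⌋₊ with hbd
  have hbm : Measurable b := by
    have h1 : Measurable (fun t : ℝ => ⌊Y * Real.exp (-t)⌋₊) := by
      apply Nat.measurable_floor.comp
      exact (continuous_const.mul (Real.continuous_exp.comp continuous_neg)).measurable
    exact (measurable_of_countable β).comp h1
  have hb1 : ∀ t, |b t| ≤ 1 := fun t => hβ _
  set R : ℝ := 4 * Real.pi ^ 3 / (K * ρ) with hR
  have hR0 : 0 ≤ R := by positivity
  set err : ℕ → ℝ := fun m => ε + (if m ∈ E then 2 else 0) with herr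
  -- one term
  have hterm : ∀ m ∈ WN Y, |(g m : ℝ) * bw Y m * ((∫ t in (-2 : ℝ)..2, b t *
      Fj K (Real.log m - Real.log Y + t)) - 2 * Real.pi * β m)| ≤
      bw Y m * (2 * Real.pi * err m + R) := by
    intro m hm
    have hm1 : 1 ≤ m := by
      rw [WN, mem_Icc] at hm
      exact hm.1
    have hm2 : (m : ℝ) ≤ Real.exp 1 * Y := by
      rw [WN, mem_Icc] at hm
      exact (Nat.le_floor_iff (by positivity)).1 hm.2
    have hm0 : (0 : ℝ) < m := by exact_mod_cast hm1
    by_cases hx : 1 ≤ |Real.log m - Real.log Y|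
    · rw [bw_zero hx]
      simp
    · push Not at hx
      have herr0 : 0 ≤ err m := by
        simp only [herr]
        split_ifs <;> linarith
      have h1 := one_point hK (x := Real.log m - Real.log Y) (E := err m) (β := β m) hx.le hρ0 hρ1
        b hbm hb1 (hβ m) herr0 (by
          intro t ht
          by_cases hmE : m ∈ E
          · have h2 : |b t - β m| ≤ 2 := by
              refine (abs_sub _ _).trans ?_
              have a1 := hb1 t
              have a2 := hβ m
              linarith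
            simp only [herr, if_pos hmE]
            linarith
          · simp only [herr, if_neg hmE, add_zero]
            apply hE m hm hmE
            -- the distance of the floor to `m`
            set v := Real.log m - Real.log Y + t with hv
            have h3 : Y * Real.exp (-t) = m * Real.exp (-v) := by
              have e1 : Y = Real.exp (Real.log Y) := (Real.exp_log hY0).symm
              have e2 : (m : ℝ) = Real.exp (Real.log m) := (Real.exp_log hm0).symm
              rw [e1, ← Real.exp_add]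
              nth_rewrite 1 [e2]
              rw [← Real.exp_add]
              congr 1
              rw [hv]
              ring
            have h4 : |Real.exp (-v) - 1| ≤ 2 * |-v| := by
              apply Real.abs_exp_sub_one_le
              rw [abs_neg]
              linarith
            rw [abs_neg] at h4
            have h5 : |Y * Real.exp (-t) - m| ≤ D - 1 := by
              rw [h3]
              have e : (m : ℝ) * Real.exp (-v) - m = m * (Real.exp (-v) - 1) := by ring
              rw [e, abs_mul, abs_of_pos hm0]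
              calc (m : ℝ) * |Real.exp (-v) - 1| ≤ (Real.exp 1 * Y) * (2 * ρ) := by
                    gcongr
                    exact h4.trans (by linarith)
                _ ≤ (3 * Y) * (2 * ρ) := by gcongr; linarith
                _ = D - 1 := by rw [hρd]; field_simp; ring
            have h6 : (⌊Y * Real.exp (-t)⌋₊ : ℝ) ≤ Y * Real.exp (-t) :=
              Nat.floor_le (by positivity)
            have h7 : Y * Real.exp (-t) < ⌊Y * Real.exp (-t)⌋₊ + 1 := Nat.lt_floor_add_one _
            obtain ⟨h8, h9⟩ := abs_le.1 h5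
            rw [abs_le]
            constructor <;> linarith)
      rw [abs_mul, abs_mul, abs_of_nonneg (bw_nonneg' m)]
      have hg1 : |(g m : ℝ)| ≤ 1 := by exact_mod_cast hgb m
      calc |(g m : ℝ)| * bw Y m * |(∫ t in (-2 : ℝ)..2, b t *
            Fj K (Real.log m - Real.log Y + t)) - 2 * Real.pi * β m|
          ≤ 1 * bw Y m * (2 * Real.pi * err m + R) := by
            have hbw := bw_nonneg' (Y := Y) m
            exact mul_le_mul (mul_le_mul_of_nonneg_right hg1 hbw) h1 (abs_nonneg _)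
              (by rw [one_mul]; exact hbw)
        _ = _ := by rw [one_mul]
  -- the sum of the integrals
  have hsum : ∑ m ∈ WN Y, (g m : ℝ) * bw Y m * (∫ t in (-2 : ℝ)..2, b t *
      Fj K (Real.log m - Real.log Y + t)) = ∫ t in (-2 : ℝ)..2, b t * ∑ m ∈ WN Y, (g m : ℝ) *
      bw Y m * Fj K (Real.log m - Real.log Y + t) := by
    have hint : ∀ m ∈ WN Y, IntervalIntegrable (fun t => (g m : ℝ) * bw Y m * (b t *
      Fj K (Real.log m - Real.log Y + t))) volume (-2) 2 := by
      intro m _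
      apply IntervalIntegrable.const_mul
      have hc : Continuous (fun t => Fj K (Real.log m - Real.log Y + t)) :=
        (Fj_cont K).comp (continuous_const.add continuous_id)
      have h1 : IntervalIntegrable (fun t => Fj K (Real.log m - Real.log Y + t)) volume (-2) 2 :=
        hc.intervalIntegrable _ _
      refine h1.mono_fun ?_ ?_
      · exact (hbm.mul hc.measurable).aestronglyMeasurable
      · filter_upwards with u
        rw [Real.norm_eq_abs, Real.norm_eq_abs, abs_mul]
        calc |b u| * |Fj K (Real.log m - Real.log Y + u)|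
            ≤ 1 * |Fj K (Real.log m - Real.log Y + u)| := by gcongr; exact hb1 _
          _ = _ := one_mul _
    have e1 : ∀ m ∈ WN Y, (g m : ℝ) * bw Y m * (∫ t in (-2 : ℝ)..2, b t *
      Fj K (Real.log m - Real.log Y + t)) = ∫ t in (-2 : ℝ)..2, (g m : ℝ) * bw Y m * (b t *
      Fj K (Real.log m - Real.log Y + t)) := fun m _ =>
        (intervalIntegral.integral_const_mul _ _).symm
    rw [sum_congr rfl e1, ← intervalIntegral.integral_finsetSum hint]
    congr 1
    ext t
    rw [mul_sum]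
    refine sum_congr rfl fun m _ => ?_
    ring
  have hGint := G_int g hK hlam hG b hb1
  rw [← hsum] at hGint
  -- assembling
  have hdiff : |∑ m ∈ WN Y, (g m : ℝ) * bw Y m * ((∫ t in (-2 : ℝ)..2, b t *
      Fj K (Real.log m - Real.log Y + t)) - 2 * Real.pi * β m)| ≤
      ∑ m ∈ WN Y, bw Y m * (2 * Real.pi * err m + R) :=
    (abs_sum_le_sum_abs _ _).trans (sum_le_sum hterm)
  have hexp : ∑ m ∈ WN Y, (g m : ℝ) * bw Y m * ((∫ t in (-2 : ℝ)..2, b t *
      Fj K (Real.log m - Real.log Y + t)) - 2 * Real.pi * β m) =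
      ∑ m ∈ WN Y, (g m : ℝ) * bw Y m * (∫ t in (-2 : ℝ)..2, b t *
      Fj K (Real.log m - Real.log Y + t)) -
      2 * Real.pi * ∑ m ∈ WN Y, (g m : ℝ) * bw Y m * β m := by
    rw [mul_sum, ← sum_sub_distrib]
    refine sum_congr rfl fun m _ => ?_
    ring
  rw [hexp] at hdiff
  have hW1 : ∀ m ∈ WN Y, 1 ≤ m := fun m hm => by
    rw [WN, mem_Icc] at hm
    exact hm.1
  have hWc : ((WN Y).card : ℝ) ≤ Real.exp 1 * Y := by
    rw [WN, Nat.card_Icc, Nat.add_sub_cancel]
    exact Nat.floor_le (by positivity)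
  have hW : ∑ m ∈ WN Y, bw Y m ≤ 8 := by
    refine (bw_sum hY0 _ hW1).trans ?_
    calc ((WN Y).card : ℝ) * (Real.exp 1 / Y) ≤ (Real.exp 1 * Y) * (Real.exp 1 / Y) := by gcongr
      _ = Real.exp 1 ^ 2 := by field_simp
      _ ≤ 8 := by nlinarith
  have hWE : ∑ m ∈ WN Y, bw Y m * (if m ∈ E then (2 : ℝ) else 0) ≤ 6 * E.card / Y := by
    have h1 : ∑ m ∈ WN Y, bw Y m * (if m ∈ E then (2 : ℝ) else 0) =
        ∑ m ∈ (WN Y).filter (· ∈ E), bw Y m * 2 := by
      rw [sum_filter]
      refine sum_congr rfl fun m _ => ?_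
      split_ifs <;> simp
    rw [h1, ← sum_mul]
    have h2 := bw_sum hY0 ((WN Y).filter (· ∈ E)) (fun m hm => hW1 m (mem_filter.1 hm).1)
    have h3 : ((WN Y).filter (· ∈ E)).card ≤ E.card :=
      card_le_card fun m hm => (mem_filter.1 hm).2
    have h4 : (((WN Y).filter (· ∈ E)).card : ℝ) ≤ E.card := by exact_mod_cast h3
    calc (∑ m ∈ (WN Y).filter (· ∈ E), bw Y m) * 2
        ≤ ((((WN Y).filter (· ∈ E)).card : ℝ) * (Real.exp 1 / Y)) * 2 := by gcongr
      _ ≤ ((E.card : ℝ) * (3 / Y)) * 2 := by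
          gcongr
          linarith
      _ = 6 * E.card / Y := by ring
  have hRHS : ∑ m ∈ WN Y, bw Y m * (2 * Real.pi * err m + R) ≤
      2 * Real.pi * (8 * ε + 6 * E.card / Y) + 8 * R := by
    have h1 : ∑ m ∈ WN Y, bw Y m * (2 * Real.pi * err m + R) =
        2 * Real.pi * (ε * ∑ m ∈ WN Y, bw Y m +
          ∑ m ∈ WN Y, bw Y m * (if m ∈ E then (2 : ℝ) else 0)) + R * ∑ m ∈ WN Y, bw Y m := by
      rw [mul_sum, ← sum_add_distrib, mul_sum, mul_sum, ← sum_add_distrib]
      refine sum_congr rfl fun m _ => ?_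
      simp only [herr]
      ring
    rw [h1]
    have h2 : ε * ∑ m ∈ WN Y, bw Y m ≤ ε * 8 := by gcongr
    have h3 : R * ∑ m ∈ WN Y, bw Y m ≤ R * 8 := by gcongr
    have h4 : 2 * Real.pi * (ε * ∑ m ∈ WN Y, bw Y m +
          ∑ m ∈ WN Y, bw Y m * (if m ∈ E then (2 : ℝ) else 0)) ≤
        2 * Real.pi * (8 * ε + 6 * E.card / Y) := by
      apply mul_le_mul_of_nonneg_left _ (by positivity)
      linarith
    linarith
  set X := ∑ m ∈ WN Y, (g m : ℝ) * bw Y m * β m with hX
  set I := ∑ m ∈ WN Y, (g m : ℝ) * bw Y m * (∫ t in (-2 : ℝ)..2, b t *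
      Fj K (Real.log m - Real.log Y + t)) with hI
  have h1 : 2 * Real.pi * |X| ≤ 2 * Real.pi * lam + (2 * Real.pi * (8 * ε + 6 * E.card / Y) + 8 * R) := by
    have e : 2 * Real.pi * |X| = |I - (I - 2 * Real.pi * X)| := by
      rw [show I - (I - 2 * Real.pi * X) = 2 * Real.pi * X by ring, abs_mul,
        abs_of_pos (by positivity : 0 < 2 * Real.pi)]
    rw [e]
    refine (abs_sub _ _).trans ?_
    linarith
  have hR2 : 8 * R ≤ 2 * Real.pi * (8000 * Y / (K * D)) := by
    rw [hR, hρd]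
    have e1 : 8 * (4 * Real.pi ^ 3 / (K * ((D - 1) / (6 * Y)))) =
        2 * Real.pi * (96 * Real.pi ^ 2 * Y / (K * (D - 1))) := by
      have : (D : ℝ) - 1 ≠ 0 := by linarith
      field_simp
      ring
    rw [e1]
    apply mul_le_mul_of_nonneg_left _ (by positivity)
    rw [div_le_div_iff₀ (mul_pos hK0 (by linarith)) (by positivity)]
    have h2 : 96 * Real.pi ^ 2 * D ≤ 8000 * (D - 1) := by
      have h3 : Real.pi ^ 2 ≤ 10 := by nlinarith
      nlinarith
    calc 96 * Real.pi ^ 2 * Y * (K * D) = (96 * Real.pi ^ 2 * D) * (Y * K) := by ring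
      _ ≤ (8000 * (D - 1)) * (Y * K) := by gcongr
      _ = 8000 * Y * (K * (D - 1)) := by ring
  have h2 : 2 * Real.pi * |X| ≤ 2 * Real.pi * (lam + 8 * ε + 8000 * Y / (K * D) + 6 * E.card / Y) := by
    linarith
  exact le_of_mul_le_mul_left h2 (by positivity)

end Pool.Agent.H426R3.CL
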