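import Pool.Agent.H970R2.X.Mrg
import Pool.Agent.H970R2.X.Rap
import Pool.Agent.H970R2.X.Smf
import Pool.Agent.H426R3.CL.Avg

set_option autoImplicit false

/-! # The Liouville and Möbius functions in residue classes have small short averages -/

namespace Pool.Agent.H426R3.CL

open Finset Filter Pool.Agent.H376R2.MR Pool.Agent.H970R2.X

/-- the Liouville function on `n ≡ a mod q` -/
def gl (q a n : ℕ) : ℤ := if n % q = a % q then lam n else 0

/-- the Möbius function on `n ≡ a mod q` -/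
def gm (q a n : ℕ) : ℤ := if n % q = a % q then ArithmeticFunction.moebius n else 0

theorem lam_abs (n : ℕ) : |lam n| ≤ 1 := by
  unfold lam
  rw [abs_pow]
  simp

theorem gl_bdd (q a : ℕ) : Bdd (gl q a) := by
  intro n
  unfold gl
  split_ifs
  · exact lam_abs n
  · simp

theorem gm_bdd (q a : ℕ) : Bdd (gm q a) := by
  intro n
  unfold gm
  split_ifs
  · exact ArithmeticFunction.abs_moebius_le_one
  · simp

theorem mod_mul {q p m : ℕ} (hp : P1 q p) : (p * m) % q = m % q := by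
  have h : p % q = 1 % q := hp
  rw [Nat.mul_mod, h, ← Nat.mul_mod, one_mul]

theorem lam_mul_prime {p m : ℕ} (hp : p.Prime) (hm : m ≠ 0) : lam (p * m) = - lam m := by
  unfold lam
  rw [ArithmeticFunction.cardFactors_mul hp.ne_zero hm,
    ArithmeticFunction.cardFactors_apply_prime hp, pow_add, pow_one]
  ring

theorem gl_flip (q a : ℕ) : Flip (P1 q) (gl q a) := by
  intro p m hp hP hpm
  have hm : m ≠ 0 := by
    rintro rfl
    exact hpm (dvd_zero _)
  unfold gl
  rw [mod_mul hP, lam_mul_prime hp hm]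
  split_ifs <;> simp

theorem gm_flip (q a : ℕ) : Flip (P1 q) (gm q a) := by
  intro p m hp hP hpm
  unfold gm
  rw [mod_mul hP, ArithmeticFunction.isMultiplicative_moebius.map_mul_of_coprime
    ((Nat.Prime.coprime_iff_not_dvd hp).2 hpm), ArithmeticFunction.moebius_apply_prime hp]
  split_ifs <;> simp

theorem gl_eq {q a n N : ℕ} (hn : 1 ≤ n) (hN : n ≤ N) :
    ((gl q a n : ℤ) : ℝ) = ∑ d ∈ Icc 1 N, if d ^ 2 ∣ n then
      (if n % q = a % q then (ArithmeticFunction.moebius (n / d ^ 2) : ℝ) else 0) else 0 := by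
  obtain ⟨s, b, hab, hs⟩ := Nat.sq_mul_squarefree n
  have hb : b ≠ 0 := by rintro rfl; simp at hab; omega
  have hs0 : s ≠ 0 := hs.ne_zero
  have hbn : b ≤ N := by
    have : b ≤ b ^ 2 * s := by
      calc b ≤ b ^ 2 := Nat.le_self_pow (by norm_num) b
        _ ≤ b ^ 2 * s := Nat.le_mul_of_pos_right _ (Nat.pos_of_ne_zero hs0)
    omega
  rw [Finset.sum_eq_single b]
  · have hdvd : b ^ 2 ∣ n := ⟨s, hab.symm⟩
    rw [if_pos hdvd]
    have hdiv : n / b ^ 2 = s := by
      rw [← hab, Nat.mul_div_cancel_left _ (pow_pos (Nat.pos_of_ne_zero hb) 2)]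
    rw [hdiv]
    unfold gl
    by_cases h1 : n % q = a % q
    · simp only [h1, if_true]
      rw [ArithmeticFunction.moebius_apply_of_squarefree hs]
      congr 1
      rw [← hab]
      unfold lam
      rw [ArithmeticFunction.cardFactors_mul (pow_ne_zero _ hb) hs0,
        ArithmeticFunction.cardFactors_pow, pow_add, pow_mul]
      simp
    · simp [h1]
  · intro d hd hdb
    rw [mem_Icc] at hd
    by_cases hdn : d ^ 2 ∣ n
    · obtain ⟨c, hc⟩ := hdn
      have hdiv : n / d ^ 2 = c := by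
        rw [hc, Nat.mul_div_cancel_left _ (pow_pos (by omega) 2)]
      rw [hdiv]
      by_cases hcs : Squarefree c
      · exfalso
        exact hdb (smallk_sqf_unique hs hcs hb (by omega) (by rw [← hc, hab]))
      · rw [ArithmeticFunction.moebius_eq_zero_of_not_squarefree hcs]; simp
    · rw [if_neg hdn]
  · intro h
    exfalso
    apply h
    rw [mem_Icc]
    exact ⟨Nat.pos_of_ne_zero hb, hbn⟩

theorem gl_sum_eq (q a N : ℕ) : ∑ n ∈ Icc 1 N, ((gl q a n : ℤ) : ℝ) =
    ∑ d ∈ Icc 1 N, smfM q a (d ^ 2) (N / d ^ 2) := by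
  have h1 : ∀ n ∈ Icc 1 N, ((gl q a n : ℤ) : ℝ) = ∑ d ∈ Icc 1 N, if d ^ 2 ∣ n then
      (if n % q = a % q then
        (ArithmeticFunction.moebius (n / d ^ 2) : ℝ) else 0) else 0 := by
    intro n hn
    rw [mem_Icc] at hn
    exact gl_eq hn.1 hn.2
  rw [Finset.sum_congr rfl h1, Finset.sum_comm]
  apply Finset.sum_congr rfl
  intro d hd
  rw [mem_Icc] at hd
  have hd2 : 0 < d ^ 2 := pow_pos (by omega) 2
  rw [← Finset.sum_filter]
  unfold smfM
  symm
  refine Finset.sum_bij' (fun m _ => d ^ 2 * m) (fun n _ => n / d ^ 2) ?_ ?_ ?_ ?_ ?_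
  · intro m hm
    rw [mem_Icc] at hm
    rw [mem_filter, mem_Icc]
    refine ⟨⟨?_, ?_⟩, Dvd.intro _ rfl⟩
    · exact Nat.one_le_iff_ne_zero.mpr (Nat.mul_ne_zero hd2.ne' (by omega))
    · calc d ^ 2 * m ≤ d ^ 2 * (N / d ^ 2) := Nat.mul_le_mul_left _ hm.2
        _ ≤ N := Nat.mul_div_le _ _
  · intro n hn
    rw [mem_filter, mem_Icc] at hn
    obtain ⟨⟨h1, h2⟩, c, hc⟩ := hn
    rw [mem_Icc]
    refine ⟨?_, Nat.div_le_div_right h2⟩
    rw [hc, Nat.mul_div_cancel_left _ hd2]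
    apply Nat.one_le_iff_ne_zero.mpr
    rintro rfl
    omega
  · intro m hm
    exact Nat.mul_div_cancel_left _ hd2
  · intro n hn
    rw [mem_filter] at hn
    exact Nat.mul_div_cancel' hn.2
  · intro m hm
    rw [Nat.mul_div_cancel_left _ hd2]

theorem gl_littleO (q a : ℕ) (hq : 0 < q) {ε : ℝ} (hε : 0 < ε) :
    ∃ N₀ : ℕ, ∀ N : ℕ, N₀ ≤ N → |∑ n ∈ Icc 1 N, ((gl q a n : ℤ) : ℝ)| ≤ ε * N := by
  set T : ℕ → ℕ → ℝ := fun d N => smfM q a (d ^ 2) N with hT
  have hTle : ∀ d N, |T d N| ≤ N := fun d N => smf_abs_M_le _ _ _ _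
  have hTo : ∀ d, ∀ ε > 0, ∃ N₀ : ℕ, ∀ N : ℕ, N₀ ≤ N → |T d N| ≤ ε * N := by
    intro d ε hε
    exact smf_M_littleO q a (d ^ 2) hq hε
  have hsum : Summable (fun d : ℕ => 1 / ((d : ℝ) ^ 2)) := Real.summable_one_div_nat_pow.mpr (by norm_num)
  have key : Tendsto (fun N : ℕ => ∑' d : ℕ, (if d ∈ Icc 1 N then T d (N / d ^ 2) / N else 0)) atTop
      (nhds (∑' _d : ℕ, (0 : ℝ))) := by
    apply tendsto_tsum_of_dominated_convergence hsum
    · intro d
      rw [Metric.tendsto_atTop]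
      intro δ hδ
      obtain ⟨N₁, hN₁⟩ := hTo d (δ / 2) (by positivity)
      refine ⟨(N₁ + 1) * d ^ 2 + 1, fun N hN => ?_⟩
      simp only [dist_zero_right, Real.norm_eq_abs]
      split_ifs with hd
      · rw [mem_Icc] at hd
        have hd2 : 0 < d ^ 2 := pow_pos (by omega) 2
        have hNpos : (0 : ℝ) < N := by
          have : 0 < N := by omega
          exact_mod_cast this
        have h1 : N₁ ≤ N / d ^ 2 := by
          rw [Nat.le_div_iff_mul_le hd2]
          nlinarith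
        have h2 := hN₁ _ h1
        rw [abs_div, abs_of_pos hNpos, div_lt_iff₀ hNpos]
        have h3 : ((N / d ^ 2 : ℕ) : ℝ) ≤ N := by
          exact_mod_cast Nat.div_le_self N (d ^ 2)
        calc |T d (N / d ^ 2)| ≤ δ / 2 * ((N / d ^ 2 : ℕ) : ℝ) := h2
          _ ≤ δ / 2 * N := by gcongr
          _ < δ * N := by nlinarith
      · simpa using hδ
    · filter_upwards with N d
      split_ifs with hd
      · rw [mem_Icc] at hd
        have hNpos : (0 : ℝ) < N := by
          have : 0 < N := by omega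
          exact_mod_cast this
        have hdpos : (0 : ℝ) < (d : ℝ) ^ 2 := by
          have : 0 < d := by omega
          positivity
        rw [Real.norm_eq_abs, abs_div, abs_of_pos hNpos, div_le_div_iff₀ hNpos hdpos]
        have h1 := hTle d (N / d ^ 2)
        have h2 : ((N / d ^ 2 : ℕ) : ℝ) ≤ N / (d : ℝ) ^ 2 := by
          have := @Nat.cast_div_le ℝ _ _ _ N (d ^ 2)
          simpa using this
        calc |T d (N / d ^ 2)| * (d : ℝ) ^ 2 ≤ ((N : ℝ) / (d : ℝ) ^ 2) * (d : ℝ) ^ 2 :=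
              mul_le_mul_of_nonneg_right (h1.trans h2) hdpos.le
          _ = 1 * (N : ℝ) := by rw [div_mul_cancel₀ _ hdpos.ne', one_mul]
      · simp
  rw [tsum_zero, Metric.tendsto_atTop] at key
  obtain ⟨N₀, hN₀⟩ := key ε hε
  refine ⟨N₀ + 1, fun N hN => ?_⟩
  have h1 := hN₀ N (by omega)
  rw [dist_zero_right, Real.norm_eq_abs] at h1
  have hNpos : (0 : ℝ) < N := by
    have : 0 < N := by omega
    exact_mod_cast this
  have h2 : (∑' d : ℕ, (if d ∈ Icc 1 N then T d (N / d ^ 2) / N else 0)) =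
      (∑ n ∈ Icc 1 N, ((gl q a n : ℤ) : ℝ)) / N := by
    rw [tsum_eq_sum (s := Icc 1 N)]
    · rw [gl_sum_eq, Finset.sum_div]
      apply Finset.sum_congr rfl
      intro d hd
      rw [if_pos hd]
    · intro d hd
      rw [if_neg hd]
  rw [h2, abs_div, abs_of_pos hNpos, div_lt_iff₀ hNpos] at h1
  exact h1.le

theorem gl_small {q : ℕ} (hq : 0 < q) (a : ℕ) : SmallAvg (gl q a) := by
  obtain ⟨c, hc, hR⟩ := rich_ap q hq
  refine ⟨gl_bdd q a, fun η hη => ?_⟩
  exact mr_gen (P1 q) (gl q a) c (gl_bdd q a) (gl_flip q a) hc hR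
    (fun k => smf_abel (gl q a) (fun _ hε => gl_littleO q a hq hε) k) hη

theorem gm_small {q : ℕ} (hq : 0 < q) (a : ℕ) : SmallAvg (gm q a) := by
  obtain ⟨c, hc, hR⟩ := rich_ap q hq
  refine ⟨gm_bdd q a, fun η hη => ?_⟩
  refine mr_gen (P1 q) (gm q a) c (gm_bdd q a) (gm_flip q a) hc hR
    (fun k => smf_abel (gm q a) (fun ε hε => ?_) k) hη
  obtain ⟨N₀, hN₀⟩ := smf_ap_littleO q (a % q) hq hε
  refine ⟨N₀, fun N hN => ?_⟩
  have h1 := hN₀ N hN
  have h2 : ∑ n ∈ Icc 1 N, ((gm q a n : ℤ) : ℝ) =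
      ∑ m ∈ Icc 1 N, if m % q = a % q then (ArithmeticFunction.moebius m : ℝ) else 0 := by
    refine sum_congr rfl fun m _ => ?_
    unfold gm
    split_ifs <;> simp
  rw [h2]
  exact h1

end Pool.Agent.H426R3.CL
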